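import Pool.Agent.H446R2.BrunC

set_option autoImplicit false

namespace Pool.Agent.H446R2

open Finset

lemma rr_odd (I i : ℕ) : Odd (rr I i) := by
  refine ⟨13 + (I - 1 - i), ?_⟩
  unfold rr
  ring

/-- Lower bound sieve with level a fixed power of the sifting limit. -/
theorem sieve_lower (S : Finset ℕ) (hS : ∀ p ∈ S, p.Prime) (I : ℕ) (hI : 1 ≤ I)
    (hSY : ∀ p ∈ S, p ≤ 2 ^ 2 ^ I) (m k : ℕ) :
    (k : ℝ) * (Real.exp (-8) ^ I / 2) - (2 : ℝ) ^ (60 * 2 ^ I)
      ≤ (((Ioc m (m + k)).filter (fun n => ∀ p ∈ S, ¬ p ∣ n)).card : ℝ) := by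
  have hTp : ∀ i, ∀ p ∈ TT S i, p.Prime := fun i p hp => hS p (filter_subset _ _ hp)
  have hVge : ∀ i, Real.exp (-8) ≤ yb (TT S i) (rr I i) dn := by
    intro i
    refine le_trans ?_ (yb_dn_ge (hTp i) (rr I i) (rr_odd I i))
    apply Real.exp_le_exp.2
    linarith [TT_sum S hS i]
  have hVpos : ∀ i, 0 < yb (TT S i) (rr I i) dn := fun i => (Real.exp_pos _).trans_le (hVge i)
  obtain ⟨U, L, hU, hL, hUL⟩ := blocks (TT S) (rr I) hTp (TT_disj S) (rr_odd I) hVpos I
  have h1 := hL.sum_bound m k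
  have h2 := (abs_le.1 h1).1
  -- the indicator
  have h3 : ∀ n, L n ≤ if ∀ p ∈ S, ¬ p ∣ n then (1 : ℝ) else 0 := by
    intro n
    refine (hUL n).1.trans ?_
    by_cases h : ∀ p ∈ S, ¬ p ∣ n
    · rw [if_pos h]
      apply Finset.prod_le_one
      · intro i _
        exact prod_nonneg fun p _ => by linarith [ui_le_one n p]
      · intro i _
        apply Finset.prod_le_one
        · intro p _; linarith [ui_le_one n p]
        · intro p _; linarith [ui_nonneg n p]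
    · rw [if_neg h]
      push Not at h
      obtain ⟨p, hp, hpn⟩ := h
      obtain ⟨i, hi, hpi⟩ := TT_cover S p hp I hI (hSY p hp)
      apply le_of_eq
      apply prod_eq_zero (mem_range.2 hi)
      apply prod_eq_zero hpi
      rw [ui, if_pos hpn]
      ring
  have h4 : ∑ n ∈ Ioc m (m + k), L n
      ≤ (((Ioc m (m + k)).filter (fun n => ∀ p ∈ S, ¬ p ∣ n)).card : ℝ) := by
    rw [Finset.card_filter]
    push_cast
    exact sum_le_sum fun n _ => h3 n
  -- main term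
  have he8 : Real.exp 8 * Real.exp 8 ≤ 2 ^ 24 := by
    rw [← Real.exp_add]
    have h5 : Real.exp (8 + 8) = Real.exp 1 ^ 16 := by
      rw [← Real.exp_nat_mul]; norm_num
    rw [h5]
    have h6 := Real.exp_one_lt_d9
    calc Real.exp 1 ^ 16 ≤ 2.7182818286 ^ 16 := pow_le_pow_left₀ (Real.exp_pos 1).le h6.le 16
      _ ≤ 2 ^ 24 := by norm_num
  have hW : ∀ i, wb (TT S i) (rr I i) dn / yb (TT S i) (rr I i) dn
      ≤ (1 / 2 : ℝ) ^ (rr I i) * 2 ^ 24 := by
    intro i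
    have h5 := wb_le (TT S i) (rr I i) dn (fun p _ => dn_nonneg p)
    have h6 : Real.exp (2 * ∑ p ∈ TT S i, dn p) ≤ Real.exp 8 := by
      apply Real.exp_le_exp.2
      linarith [TT_sum S hS i]
    rw [div_le_iff₀ (hVpos i)]
    have h7 : (1 : ℝ) ≤ Real.exp 8 * yb (TT S i) (rr I i) dn := by
      have := mul_le_mul_of_nonneg_left (hVge i) (Real.exp_pos 8).le
      rwa [← Real.exp_add, add_neg_cancel, Real.exp_zero] at this
    calc wb (TT S i) (rr I i) dn ≤ (1 / 2 : ℝ) ^ (rr I i) * Real.exp 8 :=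
          h5.trans (mul_le_mul_of_nonneg_left h6 (by positivity))
      _ = (1 / 2 : ℝ) ^ (rr I i) * Real.exp 8 * 1 := by ring
      _ ≤ (1 / 2 : ℝ) ^ (rr I i) * Real.exp 8 * (Real.exp 8 * yb (TT S i) (rr I i) dn) :=
          mul_le_mul_of_nonneg_left h7 (by positivity)
      _ = (1 / 2 : ℝ) ^ (rr I i) * (Real.exp 8 * Real.exp 8) * yb (TT S i) (rr I i) dn := by ring
      _ ≤ (1 / 2 : ℝ) ^ (rr I i) * 2 ^ 24 * yb (TT S i) (rr I i) dn := by
          apply mul_le_mul_of_nonneg_right _ (hVpos i).le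
          exact mul_le_mul_of_nonneg_left he8 (by positivity)
  have hWs : ∑ i ∈ range I, wb (TT S i) (rr I i) dn / yb (TT S i) (rr I i) dn ≤ 1 / 2 := by
    refine (sum_le_sum fun i _ => hW i).trans ?_
    rw [← sum_mul]
    have := geom_sum_bound I
    calc (∑ i ∈ range I, (1 / 2 : ℝ) ^ rr I i) * 2 ^ 24 ≤ 1 / 2 ^ 25 * 2 ^ 24 :=
          mul_le_mul_of_nonneg_right this (by positivity)
      _ = 1 / 2 := by norm_num
  have hVprod : Real.exp (-8) ^ I ≤ ∏ i ∈ range I, yb (TT S i) (rr I i) dn := by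
    calc Real.exp (-8) ^ I = ∏ i ∈ range I, Real.exp (-8) := by simp
      _ ≤ _ := prod_le_prod (fun i _ => (Real.exp_pos _).le) (fun i _ => hVge i)
  have hmain : Real.exp (-8) ^ I / 2 ≤ (∏ i ∈ range I, yb (TT S i) (rr I i) dn)
      * (1 - ∑ i ∈ range I, wb (TT S i) (rr I i) dn / yb (TT S i) (rr I i) dn) := by
    have hp : 0 < Real.exp (-8) ^ I := by positivity
    calc Real.exp (-8) ^ I / 2 = Real.exp (-8) ^ I * (1 / 2) := by ring
      _ ≤ _ := mul_le_mul hVprod (by linarith) (by norm_num) (hp.le.trans hVprod)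
  -- error term
  have hE : ∏ i ∈ range I, Nc (TT S i) (rr I i) ≤ (2 : ℝ) ^ (60 * 2 ^ I) := by
    have h5 : ∀ i ∈ range I, Nc (TT S i) (rr I i) ≤ (2 : ℝ) ^ (2 ^ (i + 1) * (rr I i + 1)) := by
      intro i _
      have h6 := Nc_le (TT S i) (rr I i) (2 ^ 2 ^ (i + 1)) (by
        calc 4 = 2 ^ 2 ^ 1 := by norm_num
          _ ≤ 2 ^ 2 ^ (i + 1) := Nat.pow_le_pow_right (by norm_num)
              (Nat.pow_le_pow_right (by norm_num) (by omega))) (by
        intro p hp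
        refine ⟨(hTp i p hp).one_le, ?_⟩
        rw [TT, mem_filter] at hp
        exact hp.2.1)
      refine h6.trans (le_of_eq ?_)
      push_cast
      rw [← pow_mul]
    refine (prod_le_prod (fun i _ => by unfold Nc; positivity) h5).trans ?_
    rw [prod_pow_eq_pow_sum]
    apply pow_le_pow_right₀ (by norm_num)
    have := exponent_sum I
    omega
  have hk : (0 : ℝ) ≤ k := Nat.cast_nonneg k
  have := mul_le_mul_of_nonneg_left hmain hk
  linarith

lemma exp_bound (I : ℕ) (hI : 8 ≤ I) : 12 * I + 2 ≤ 2 ^ (I - 1) := by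
  induction I, hI using Nat.le_induction with
  | base => norm_num
  | succ I hI ih =>
    have h1 : 2 ^ (I + 1 - 1) = 2 * 2 ^ (I - 1) := by
      rw [show I + 1 - 1 = (I - 1) + 1 by omega, pow_succ]; ring
    rw [h1]
    omega

/-- Jacobsthal type bound. -/
theorem cover (S : Finset ℕ) (hS : ∀ p ∈ S, p.Prime) (I : ℕ) (hI : 8 ≤ I)
    (hcard : S.card ≤ 2 ^ 2 ^ (I - 1)) (m k : ℕ) (hk : 2 ^ (62 * 2 ^ I) < k) :
    ∃ n ∈ Ioc m (m + k), ∀ p ∈ S, ¬ p ∣ n := by
  by_contra hcon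
  push Not at hcon
  set Y : ℕ := 2 ^ 2 ^ I with hY
  set Z : ℕ := 2 ^ 2 ^ (I - 1) with hZ
  have hZY : Z * Z = Y := by
    rw [hZ, hY, ← pow_add, ← two_mul, ← pow_succ']
    congr 2
    omega
  set S1 := S.filter (fun p => p ≤ Y)
  set S2 := S.filter (fun p => ¬ p ≤ Y)
  have h1 := sieve_lower S1 (fun p hp => hS p (filter_subset _ _ hp)) I (by omega)
    (fun p hp => (mem_filter.1 hp).2) m k
  -- every integer free of primes of S1 is divisible by a prime of S2
  have h2 : (Ioc m (m + k)).filter (fun n => ∀ p ∈ S1, ¬ p ∣ n)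
      ⊆ S2.biUnion (fun p => (Ioc m (m + k)).filter (fun n => p ∣ n)) := by
    intro n hn
    rw [mem_filter] at hn
    obtain ⟨p, hp, hpn⟩ := hcon n hn.1
    rw [mem_biUnion]
    refine ⟨p, ?_, mem_filter.2 ⟨hn.1, hpn⟩⟩
    rw [mem_filter]
    refine ⟨hp, fun hle => ?_⟩
    exact hn.2 p (mem_filter.2 ⟨hp, hle⟩) hpn
  have h3 : (((Ioc m (m + k)).filter (fun n => ∀ p ∈ S1, ¬ p ∣ n)).card : ℝ)
      ≤ Z * ((k : ℝ) / Y + 1) := by
    have h4 : ((Ioc m (m + k)).filter (fun n => ∀ p ∈ S1, ¬ p ∣ n)).card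
        ≤ ∑ p ∈ S2, ((Ioc m (m + k)).filter (fun n => p ∣ n)).card :=
      (card_le_card h2).trans card_biUnion_le
    have h5 : ∀ p ∈ S2, (((Ioc m (m + k)).filter (fun n => p ∣ n)).card : ℝ) ≤ (k : ℝ) / Y + 1 := by
      intro p hp
      rw [mem_filter] at hp
      have hpp := hS p hp.1
      have h6 := (abs_le.1 (count_dvd m k p hpp.pos)).2
      rw [Finset.card_filter]
      push_cast
      have hYp : (Y : ℝ) ≤ p := by
        have : Y ≤ p := by omega
        exact_mod_cast this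
      have hY0 : (0 : ℝ) < Y := by
        have : 0 < Y := by positivity
        exact_mod_cast this
      have h7 : (k : ℝ) / p ≤ k / Y := div_le_div_of_nonneg_left (by positivity) hY0 hYp
      linarith
    have h8 : ((∑ p ∈ S2, ((Ioc m (m + k)).filter (fun n => p ∣ n)).card : ℕ) : ℝ)
        ≤ ∑ p ∈ S2, ((k : ℝ) / Y + 1) := by
      push_cast
      exact sum_le_sum h5
    rw [sum_const, nsmul_eq_mul] at h8
    have h9 : (S2.card : ℝ) ≤ Z := by
      have : S2.card ≤ Z := (card_le_card (filter_subset _ _)).trans hcard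
      exact_mod_cast this
    have h10 : (((Ioc m (m + k)).filter (fun n => ∀ p ∈ S1, ¬ p ∣ n)).card : ℝ)
        ≤ ((∑ p ∈ S2, ((Ioc m (m + k)).filter (fun n => p ∣ n)).card : ℕ) : ℝ) := by
      exact_mod_cast h4
    have h11 : (S2.card : ℝ) * ((k : ℝ) / Y + 1) ≤ Z * ((k : ℝ) / Y + 1) :=
      mul_le_mul_of_nonneg_right h9 (by positivity)
    linarith
  -- numerical contradiction
  have hZpos : (0 : ℝ) < Z := by
    have : 0 < Z := by positivity
    exact_mod_cast this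
  have hYZ : (Y : ℝ) = Z * Z := by exact_mod_cast hZY.symm
  have he : (4 : ℝ) / Z ≤ Real.exp (-8) ^ I := by
    have e1 : Real.exp 8 ≤ 2 ^ 12 := by
      have h5 : Real.exp 8 = Real.exp 1 ^ 8 := by
        rw [← Real.exp_nat_mul]; norm_num
      rw [h5]
      have h6 := Real.exp_one_lt_d9
      calc Real.exp 1 ^ 8 ≤ 2.7182818286 ^ 8 := pow_le_pow_left₀ (Real.exp_pos 1).le h6.le 8
        _ ≤ 2 ^ 12 := by norm_num
    have e2 : (4 : ℝ) * Real.exp 8 ^ I ≤ Z := by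
      calc (4 : ℝ) * Real.exp 8 ^ I ≤ 4 * (2 ^ 12) ^ I := by
            gcongr
        _ = 2 ^ (12 * I + 2) := by rw [pow_add, pow_mul]; ring
        _ ≤ 2 ^ (2 ^ (I - 1)) := pow_le_pow_right₀ (by norm_num) (exp_bound I hI)
        _ = Z := by rw [hZ]; push_cast; rfl
    rw [Real.exp_neg, inv_pow, div_le_iff₀ hZpos, inv_mul_eq_div, le_div_iff₀ (by positivity)]
    exact e2
  have hk' : (Y : ℝ) ^ 62 < k := by
    have : Y ^ 62 < k := by
      rw [hY, ← pow_mul]
      calc 2 ^ (2 ^ I * 62) = 2 ^ (62 * 2 ^ I) := by rw [mul_comm]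
        _ < k := hk
    exact_mod_cast this
  have hY60 : (2 : ℝ) ^ (60 * 2 ^ I) = (Y : ℝ) ^ 60 := by
    rw [hY]
    push_cast
    rw [← pow_mul, mul_comm]
  have hZ1 : (2 : ℝ) ≤ Z := by
    have : 2 ≤ Z := by
      calc 2 = 2 ^ 1 := by norm_num
        _ ≤ Z := Nat.pow_le_pow_right (by norm_num) Nat.one_le_two_pow
    exact_mod_cast this
  have hkpos : (0 : ℝ) < k := lt_of_le_of_lt (by positivity) hk'
  have h12 : (k : ℝ) * (2 / Z) ≤ k * (Real.exp (-8) ^ I / 2) := by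
    apply mul_le_mul_of_nonneg_left _ hkpos.le
    have : (2 : ℝ) / Z = (4 / Z) / 2 := by ring
    rw [this]
    linarith
  rw [hY60] at h1
  have h13 : (Z : ℝ) * ((k : ℝ) / Y + 1) = k / Z + Z := by
    rw [hYZ]; field_simp
  rw [h13] at h3
  have h14 : (k : ℝ) * (2 / Z) = k / Z + k / Z := by ring
  have h15 : (k : ℝ) / Z ≤ (Y : ℝ) ^ 60 + Z := by linarith
  have h16 : (Y : ℝ) ^ 61 ≤ k / Z := by
    rw [le_div_iff₀ hZpos]
    calc (Y : ℝ) ^ 61 * Z ≤ (Y : ℝ) ^ 61 * Y := by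
          apply mul_le_mul_of_nonneg_left _ (by positivity)
          rw [hYZ]; nlinarith
      _ = (Y : ℝ) ^ 62 := by ring
      _ ≤ k := hk'.le
  have hY2 : (4 : ℝ) ≤ Y := by rw [hYZ]; nlinarith
  have hZleY : (Z : ℝ) ≤ (Y : ℝ) ^ 60 := by
    calc (Z : ℝ) ≤ Y := by rw [hYZ]; nlinarith
      _ = (Y : ℝ) ^ 1 := by ring
      _ ≤ (Y : ℝ) ^ 60 := pow_le_pow_right₀ (by linarith) (by norm_num)
  have h17 : (Y : ℝ) ^ 61 = Y ^ 60 * Y := by ring
  have h18 : (0 : ℝ) < (Y : ℝ) ^ 60 := by positivity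
  nlinarith

end Pool.Agent.H446R2
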