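import Pool.Agent.H410R2.EDIface

set_option autoImplicit false

open Finset

namespace Pool.Agent.H446R2

open Pool.Agent.H410R2.ED

namespace T1

/-- values excluded -/
noncomputable def A {k b T : ℕ} (f : Pt k b → Fin (T + 2)) (e : Ln k b) :
    Finset (Fin (k + 1) → Fin (T + 1)) :=
  open Classical in
  univ.filter (fun v => ¬ ∀ l, (v l : ℕ) + (f (pt l e) : ℕ) = T)

theorem card_A_le {k b T : ℕ} (f : Pt k b → Fin (T + 2)) (e : Ln k b) :
    (A f e).card ≤ (T + 1) ^ (k + 1) := by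
  refine (Finset.card_le_univ _).trans ?_
  simp

theorem card_A_good {k b T : ℕ} (f : Pt k b → Fin (T + 2)) (e : Ln k b)
    (h : ∀ l, (f (pt l e) : ℕ) ≤ T) : (A f e).card ≤ (T + 1) ^ (k + 1) - 1 := by
  classical
  set v0 : Fin (k + 1) → Fin (T + 1) := fun l => ⟨T - (f (pt l e) : ℕ), by omega⟩ with hv0
  have hsub : A f e ⊆ univ.erase v0 := by
    intro v hv
    rw [Finset.mem_erase]
    refine ⟨?_, Finset.mem_univ _⟩
    rintro rfl
    unfold A at hv
    rw [Finset.mem_filter] at hv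
    apply hv.2
    intro l
    have := h l
    simp only [hv0]
    omega
  refine (Finset.card_le_card hsub).trans ?_
  rw [Finset.card_erase_of_mem (Finset.mem_univ _)]
  simp

/-- lines through a point -/
theorem card_lines {k b : ℕ} (p : Pt k b) :
    ((univ : Finset (Ln k b)).filter (fun e => pt p.1 e = p)).card ≤ b := by
  classical
  have h : ((univ : Finset (Ln k b)).filter (fun e => pt p.1 e = p)) ⊆
      (univ : Finset (Fin b)).image (fun c => Fin.insertNth (α := fun _ => Fin b) p.1 c p.2) := by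
    intro e he
    rw [Finset.mem_filter] at he
    rw [Finset.mem_image]
    refine ⟨e p.1, Finset.mem_univ _, ?_⟩
    have h2 : (fun i => e (p.1.succAbove i)) = p.2 := congrArg Prod.snd he.2
    rw [← h2]
    exact Fin.insertNth_self_removeNth p.1 e
  refine (Finset.card_le_card h).trans (Finset.card_image_le.trans ?_)
  simp

theorem bad_lines {k b T : ℕ} (f : Pt k b → Fin (T + 2)) :
    ((univ : Finset (Ln k b)).filter (fun e => ¬ ∀ l, (f (pt l e) : ℕ) ≤ T)).card ≤
      b * ((univ : Finset (Pt k b)).filter (fun p => T < (f p : ℕ))).card := by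
  classical
  have h : ((univ : Finset (Ln k b)).filter (fun e => ¬ ∀ l, (f (pt l e) : ℕ) ≤ T)) ⊆
      ((univ : Finset (Pt k b)).filter (fun p => T < (f p : ℕ))).biUnion
        (fun p => (univ : Finset (Ln k b)).filter (fun e => pt p.1 e = p)) := by
    intro e he
    rw [Finset.mem_filter] at he
    obtain ⟨-, he⟩ := he
    push Not at he
    obtain ⟨l, hl⟩ := he
    rw [Finset.mem_biUnion]
    exact ⟨pt l e, Finset.mem_filter.mpr ⟨Finset.mem_univ _, hl⟩,
      Finset.mem_filter.mpr ⟨Finset.mem_univ _, rfl⟩⟩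
  refine (Finset.card_le_card h).trans (Finset.card_biUnion_le.trans ?_)
  rw [mul_comm]
  exact Finset.sum_le_card_nsmul _ _ b (fun p _ => card_lines p)

theorem card_bad {k b T : ℕ} (f : Pt k b → Fin (T + 2))
    (hf : 2 * ((univ : Finset (Pt k b)).filter (fun p => T < (f p : ℕ))).card ≤ b ^ k) :
    ((Fintype.piFinset (A f)).card : ℝ) ≤
      (((T + 1 : ℕ) : ℝ) ^ (k + 1)) ^ (b ^ (k + 1)) *
        Real.exp (-((b : ℝ) ^ (k + 1)) / (2 * ((T + 1 : ℕ) : ℝ) ^ (k + 1))) := by
  classical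
  rw [Fintype.card_piFinset]
  push_cast
  set W : ℝ := ((T : ℝ) + 1) ^ (k + 1) with hW
  have hW1 : 1 ≤ W := by
    rw [hW]
    exact one_le_pow₀ (by have : (0 : ℝ) ≤ T := Nat.cast_nonneg _; linarith)
  have hW0 : 0 < W := by linarith
  have h1 : ∀ e ∈ (univ : Finset (Ln k b)), ((A f e).card : ℝ) ≤
      W * Real.exp (-(if ∀ l, (f (pt l e) : ℕ) ≤ T then 1 else 0) / W) := by
    intro e _
    split_ifs with h
    · have h2 := card_A_good f e h
      have h3 : ((A f e).card : ℝ) ≤ W - 1 := by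
        have h4 : (A f e).card + 1 ≤ (T + 1) ^ (k + 1) := by
          have : 0 < (T + 1) ^ (k + 1) := by positivity
          omega
        have h5 : ((A f e).card : ℝ) + 1 ≤ ((T : ℝ) + 1) ^ (k + 1) := by exact_mod_cast h4
        linarith
      have h6 : 1 - 1 / W ≤ Real.exp (-1 / W) := by
        have := Real.add_one_le_exp (-1 / W)
        have e1 : -1 / W = -(1 / W) := by ring
        rw [e1] at this ⊢
        linarith
      calc ((A f e).card : ℝ) ≤ W - 1 := h3
        _ = W * (1 - 1 / W) := by field_simp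
        _ ≤ W * Real.exp (-1 / W) := mul_le_mul_of_nonneg_left h6 hW0.le
    · have h2 := card_A_le f e
      have h3 : ((A f e).card : ℝ) ≤ ((T : ℝ) + 1) ^ (k + 1) := by exact_mod_cast h2
      simpa using h3
  have h2 := Finset.prod_le_prod (s := (univ : Finset (Ln k b)))
    (fun e _ => Nat.cast_nonneg (α := ℝ) (A f e).card) h1
  refine h2.trans ?_
  rw [Finset.prod_mul_distrib, ← Real.exp_sum, ← Finset.sum_div, Finset.sum_neg_distrib,
    Finset.prod_const, Finset.card_univ]
  have hcard : Fintype.card (Ln k b) = b ^ (k + 1) := by simp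
  rw [hcard]
  apply mul_le_mul_of_nonneg_left _ (by positivity)
  apply Real.exp_le_exp.mpr
  have h3 : (b : ℝ) ^ (k + 1) / 2 ≤ ∑ e : Ln k b, (if ∀ l, (f (pt l e) : ℕ) ≤ T then (1 : ℝ) else 0) := by
    rw [Finset.sum_boole]
    have h4 := Finset.card_filter_add_card_filter_not (s := (univ : Finset (Ln k b)))
      (fun e => ∀ l, (f (pt l e) : ℕ) ≤ T)
    rw [Finset.card_univ, hcard] at h4
    have h5 := bad_lines f
    have h6 : 2 * (b * ((univ : Finset (Pt k b)).filter (fun p => T < (f p : ℕ))).card) ≤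
        b ^ (k + 1) := by
      calc _ = b * (2 * ((univ : Finset (Pt k b)).filter (fun p => T < (f p : ℕ))).card) := by ring
        _ ≤ b * b ^ k := Nat.mul_le_mul_left _ hf
        _ = b ^ (k + 1) := by ring
    have h7 : b ^ (k + 1) ≤
        2 * ((univ : Finset (Ln k b)).filter (fun e => ∀ l, (f (pt l e) : ℕ) ≤ T)).card := by
      omega
    have h8 : (b : ℝ) ^ (k + 1) ≤
        2 * (((univ : Finset (Ln k b)).filter (fun e => ∀ l, (f (pt l e) : ℕ) ≤ T)).card : ℝ) := by
      exact_mod_cast h7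
    linarith
  rw [neg_div, neg_div, neg_le_neg_iff, div_le_div_iff₀ (by positivity) hW0]
  nlinarith

theorem final_ineq {k b T : ℕ} (hb : 2 * (k + 1) * (T + 2) ^ (k + 2) ≤ b) :
    ((T : ℝ) + 2) ^ ((k + 1) * b ^ k) *
      Real.exp (-((b : ℝ) ^ (k + 1)) / (2 * ((T + 1 : ℕ) : ℝ) ^ (k + 1))) < 1 := by
  have hT : (0 : ℝ) ≤ T := Nat.cast_nonneg _
  have hbpos : 0 < b := lt_of_lt_of_le (by positivity) hb
  have hb0 : (0 : ℝ) < b := by exact_mod_cast hbpos
  have hb' : 2 * ((k : ℝ) + 1) * ((T : ℝ) + 2) ^ (k + 2) ≤ b := by exact_mod_cast hb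
  have e1 : ((T : ℝ) + 2) ^ ((k + 1) * b ^ k) =
      Real.exp (Real.log ((T : ℝ) + 2) * ((k + 1 : ℝ) * (b : ℝ) ^ k)) := by
    rw [← Real.rpow_natCast, Real.rpow_def_of_pos (by positivity)]
    push_cast
    ring_nf
  rw [e1, ← Real.exp_add, Real.exp_lt_one_iff]
  have hlog : Real.log ((T : ℝ) + 2) < (T : ℝ) + 2 := by
    have := Real.log_le_sub_one_of_pos (by positivity : (0 : ℝ) < (T : ℝ) + 2)
    linarith
  have hW : (0 : ℝ) < ((T : ℝ) + 1) ^ (k + 1) := by positivity
  have hW2 : ((T : ℝ) + 1) ^ (k + 1) ≤ ((T : ℝ) + 2) ^ (k + 1) :=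
    pow_le_pow_left₀ (by positivity) (by linarith) _
  have h1 : Real.log ((T : ℝ) + 2) * (((k : ℝ) + 1) * (b : ℝ) ^ k) <
      (b : ℝ) ^ (k + 1) / (2 * ((T : ℝ) + 1) ^ (k + 1)) := by
    rw [lt_div_iff₀ (by positivity)]
    have hbk : (0 : ℝ) < (b : ℝ) ^ k := by positivity
    calc Real.log ((T : ℝ) + 2) * (((k : ℝ) + 1) * (b : ℝ) ^ k) * (2 * ((T : ℝ) + 1) ^ (k + 1))
        < ((T : ℝ) + 2) * (((k : ℝ) + 1) * (b : ℝ) ^ k) * (2 * ((T : ℝ) + 1) ^ (k + 1)) := by
          gcongr
      _ ≤ ((T : ℝ) + 2) * (((k : ℝ) + 1) * (b : ℝ) ^ k) * (2 * ((T : ℝ) + 2) ^ (k + 1)) := by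
          gcongr
      _ = (2 * ((k : ℝ) + 1) * ((T : ℝ) + 2) ^ (k + 2)) * (b : ℝ) ^ k := by ring
      _ ≤ b * (b : ℝ) ^ k := by gcongr
      _ = (b : ℝ) ^ (k + 1) := by ring
  push_cast
  rw [neg_div]
  linarith

end T1

open T1 in
/-- T1: combinatorial lemma -/
theorem comb : Comb := by
  classical
  intro k b T hb
  have hbpos : 0 < b := lt_of_lt_of_le (by positivity) hb
  -- relevant capped functions
  set Rel : Finset (Pt k b → Fin (T + 2)) := univ.filter (fun f =>
    2 * ((univ : Finset (Pt k b)).filter (fun p => T < (f p : ℕ))).card ≤ b ^ k) with hRel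
  set Bad : Finset (Ln k b → Fin (k + 1) → Fin (T + 1)) :=
    Rel.biUnion (fun f => Fintype.piFinset (A f)) with hBad
  set W : ℝ := ((T + 1 : ℕ) : ℝ) ^ (k + 1) with hW
  have hW0 : 0 < W := by positivity
  have hcard : (Bad.card : ℝ) <
      (Fintype.card (Ln k b → Fin (k + 1) → Fin (T + 1)) : ℝ) := by
    have h1 : (Bad.card : ℝ) ≤ ∑ f ∈ Rel, ((Fintype.piFinset (A f)).card : ℝ) := by
      have : Bad.card ≤ ∑ f ∈ Rel, (Fintype.piFinset (A f)).card := Finset.card_biUnion_le
      exact_mod_cast this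
    have h2 : ∑ f ∈ Rel, ((Fintype.piFinset (A f)).card : ℝ) ≤
        Rel.card • (W ^ (b ^ (k + 1)) *
        Real.exp (-((b : ℝ) ^ (k + 1)) / (2 * ((T + 1 : ℕ) : ℝ) ^ (k + 1)))) :=
      Finset.sum_le_card_nsmul _ _ _ (fun f hf => card_bad f (Finset.mem_filter.mp hf).2)
    have h3 : (Rel.card : ℝ) ≤ ((T : ℝ) + 2) ^ ((k + 1) * b ^ k) := by
      have h4 : Rel.card ≤ (T + 2) ^ ((k + 1) * b ^ k) := by
        refine (Finset.card_le_univ _).trans (le_of_eq ?_)
        simp
      exact_mod_cast h4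
    have h5 := final_ineq hb
    have h6 : (Fintype.card (Ln k b → Fin (k + 1) → Fin (T + 1)) : ℝ) = W ^ (b ^ (k + 1)) := by
      simp [hW]
    rw [h6]
    refine h1.trans_lt (h2.trans_lt ?_)
    rw [nsmul_eq_mul]
    have hWp : 0 < W ^ (b ^ (k + 1)) := by positivity
    have hex : 0 < Real.exp (-((b : ℝ) ^ (k + 1)) / (2 * ((T + 1 : ℕ) : ℝ) ^ (k + 1))) :=
      Real.exp_pos _
    calc (Rel.card : ℝ) * (W ^ (b ^ (k + 1)) *
        Real.exp (-((b : ℝ) ^ (k + 1)) / (2 * ((T + 1 : ℕ) : ℝ) ^ (k + 1))))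
        ≤ ((T : ℝ) + 2) ^ ((k + 1) * b ^ k) * (W ^ (b ^ (k + 1)) *
        Real.exp (-((b : ℝ) ^ (k + 1)) / (2 * ((T + 1 : ℕ) : ℝ) ^ (k + 1)))) :=
          mul_le_mul_of_nonneg_right h3 (by positivity)
      _ = W ^ (b ^ (k + 1)) * (((T : ℝ) + 2) ^ ((k + 1) * b ^ k) *
        Real.exp (-((b : ℝ) ^ (k + 1)) / (2 * ((T + 1 : ℕ) : ℝ) ^ (k + 1)))) := by ring
      _ < W ^ (b ^ (k + 1)) * 1 := mul_lt_mul_of_pos_left h5 hWp
      _ = W ^ (b ^ (k + 1)) := mul_one _
  have hcard' : Bad.card < Fintype.card (Ln k b → Fin (k + 1) → Fin (T + 1)) := by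
    exact_mod_cast hcard
  obtain ⟨r, hr⟩ : ∃ r, r ∉ Bad := by
    by_contra hcon
    push Not at hcon
    have : Bad = univ := Finset.eq_univ_of_forall hcon
    rw [this, Finset.card_univ] at hcard'
    exact lt_irrefl _ hcard'
  refine ⟨fun e l => 1 + (r e l : ℕ), ?_, ?_⟩
  · intro e l
    have := (r e l).isLt
    beta_reduce
    omega
  · intro f hf
    set f' : Pt k b → Fin (T + 2) := fun p => ⟨min (f p) (T + 1), by omega⟩ with hf'
    have hrel : f' ∈ Rel := by
      rw [hRel, Finset.mem_filter]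
      refine ⟨Finset.mem_univ _, ?_⟩
      have h1 : (T + 1) * ((univ : Finset (Pt k b)).filter (fun p => T < (f' p : ℕ))).card ≤
          ∑ p, f p := by
        calc (T + 1) * ((univ : Finset (Pt k b)).filter (fun p => T < (f' p : ℕ))).card
            = ∑ p ∈ (univ : Finset (Pt k b)).filter (fun p => T < (f' p : ℕ)), (T + 1) := by
              rw [Finset.sum_const, smul_eq_mul, mul_comm]
          _ ≤ ∑ p ∈ (univ : Finset (Pt k b)).filter (fun p => T < (f' p : ℕ)), f p := by
              apply Finset.sum_le_sum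
              intro p hp
              have := (Finset.mem_filter.mp hp).2
              simp only [hf'] at this
              omega
          _ ≤ ∑ p, f p := Finset.sum_le_sum_of_subset (Finset.filter_subset _ _)
      set c := ((univ : Finset (Pt k b)).filter (fun p => T < (f' p : ℕ))).card with hc
      have h2 : (T + 1) * (2 * c) ≤ T * b ^ k := by
        calc (T + 1) * (2 * c) = 2 * ((T + 1) * c) := by ring
          _ ≤ 2 * ∑ p, f p := Nat.mul_le_mul_left _ h1
          _ ≤ T * b ^ k := hf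
      by_contra hlt
      push Not at hlt
      have h3 : (T + 1) * b ^ k < (T + 1) * (2 * c) := Nat.mul_lt_mul_of_pos_left hlt (by omega)
      have h4 : T * b ^ k ≤ (T + 1) * b ^ k := Nat.mul_le_mul_right _ (by omega)
      omega
    have hnot : r ∉ Fintype.piFinset (A f') := by
      intro hmem
      exact hr (Finset.mem_biUnion.mpr ⟨f', hrel, hmem⟩)
    rw [Fintype.mem_piFinset] at hnot
    push Not at hnot
    obtain ⟨e, he⟩ := hnot
    refine ⟨e, fun l => ?_⟩
    unfold A at he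
    rw [Finset.mem_filter] at he
    push Not at he
    have h1 := he (Finset.mem_univ _) l
    simp only [hf'] at h1
    beta_reduce
    omega

end Pool.Agent.H446R2
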