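import Mathlib

set_option autoImplicit false

namespace Pool.Agent.H446R2

open Finset

/-- `g` is a finite divisor sum with mean `μ`, absolute coefficient sum at most `e`, and moduli
composed of primes of `P`. -/
def Rep (P : Finset ℕ) (g : ℕ → ℝ) (μ e : ℝ) : Prop :=
  ∃ (ι : Type) (s : Finset ι) (d : ι → ℕ) (c : ι → ℝ),
    (∀ i ∈ s, 0 < d i ∧ ∀ q : ℕ, q.Prime → q ∣ d i → q ∈ P) ∧
    (∀ n, g n = ∑ i ∈ s, c i * (if d i ∣ n then 1 else 0)) ∧
    μ = ∑ i ∈ s, c i / d i ∧ ∑ i ∈ s, |c i| ≤ e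

lemma Rep.mul {P Q : Finset ℕ} {g h : ℕ → ℝ} {μ ν e f : ℝ} (hg : Rep P g μ e) (hh : Rep Q h ν f)
    (hPQ : Disjoint P Q) : Rep (P ∪ Q) (fun n => g n * h n) (μ * ν) (e * f) := by
  obtain ⟨ι, s, d, c, h1, h2, h3, h4⟩ := hg
  obtain ⟨κ, t, d', c', h1', h2', h3', h4'⟩ := hh
  refine ⟨ι × κ, s ×ˢ t, fun x => d x.1 * d' x.2, fun x => c x.1 * c' x.2, ?_, ?_, ?_, ?_⟩
  · intro x hx
    rw [mem_product] at hx
    refine ⟨Nat.mul_pos (h1 _ hx.1).1 (h1' _ hx.2).1, fun q hq hqd => ?_⟩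
    rw [mem_union]
    rcases (Nat.Prime.dvd_mul hq).1 hqd with h | h
    · exact Or.inl ((h1 _ hx.1).2 q hq h)
    · exact Or.inr ((h1' _ hx.2).2 q hq h)
  · intro n
    show g n * h n = _
    rw [h2, h2', sum_mul_sum, ← sum_product']
    apply sum_congr rfl
    intro x hx
    rw [mem_product] at hx
    beta_reduce
    have hcop : Nat.Coprime (d x.1) (d' x.2) := by
      apply Nat.coprime_of_dvd
      intro q hq hq1 hq2
      exact Finset.disjoint_left.1 hPQ ((h1 _ hx.1).2 q hq hq1) ((h1' _ hx.2).2 q hq hq2)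
    by_cases ha : d x.1 ∣ n
    · by_cases hb : d' x.2 ∣ n
      · rw [if_pos ha, if_pos hb, if_pos (hcop.mul_dvd_of_dvd_of_dvd ha hb)]; ring
      · rw [if_neg hb, if_neg (fun h => hb ((Dvd.intro_left _ rfl).trans h))]; ring
    · rw [if_neg ha, if_neg (fun h => ha ((Dvd.intro _ rfl).trans h))]; ring
  · rw [h3, h3', sum_mul_sum, ← sum_product']
    apply sum_congr rfl
    intro x _
    push_cast
    rw [div_mul_div_comm]
  · calc ∑ x ∈ s ×ˢ t, |c x.1 * c' x.2| = (∑ i ∈ s, |c i|) * ∑ i ∈ t, |c' i| := by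
          rw [sum_mul_sum, ← sum_product']
          apply sum_congr rfl
          intro x _
          rw [abs_mul]
      _ ≤ e * f := mul_le_mul h4 h4' (sum_nonneg fun i _ => abs_nonneg _)
          ((sum_nonneg fun i _ => abs_nonneg _).trans h4)

lemma Rep.sub {P : Finset ℕ} {g h : ℕ → ℝ} {μ ν e f : ℝ} (hg : Rep P g μ e) (hh : Rep P h ν f) :
    Rep P (fun n => g n - h n) (μ - ν) (e + f) := by
  obtain ⟨ι, s, d, c, h1, h2, h3, h4⟩ := hg
  obtain ⟨κ, t, d', c', h1', h2', h3', h4'⟩ := hh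
  refine ⟨ι ⊕ κ, s.disjSum t, Sum.elim d d', Sum.elim c (fun i => - c' i), ?_, ?_, ?_, ?_⟩
  · intro x hx
    rw [mem_disjSum] at hx
    rcases hx with ⟨a, ha, rfl⟩ | ⟨b, hb, rfl⟩
    · exact h1 a ha
    · exact h1' b hb
  · intro n
    show g n - h n = _
    rw [h2, h2', sum_disjSum, sub_eq_add_neg, ← sum_neg_distrib]
    simp only [Sum.elim_inl, Sum.elim_inr, neg_mul]
    rfl
  · rw [h3, h3', sum_disjSum, sub_eq_add_neg, ← sum_neg_distrib]
    simp only [Sum.elim_inl, Sum.elim_inr, neg_div]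
  · rw [sum_disjSum]
    simp only [Sum.elim_inl, Sum.elim_inr, abs_neg]
    exact add_le_add h4 h4'

lemma Rep.mono {P Q : Finset ℕ} {g : ℕ → ℝ} {μ e f : ℝ} (hg : Rep P g μ e) (hPQ : P ⊆ Q)
    (hef : e ≤ f) : Rep Q g μ f := by
  obtain ⟨ι, s, d, c, h1, h2, h3, h4⟩ := hg
  exact ⟨ι, s, d, c, fun i hi => ⟨(h1 i hi).1, fun q hq hqd => hPQ ((h1 i hi).2 q hq hqd)⟩, h2, h3,
    h4.trans hef⟩

lemma count_dvd (m k d : ℕ) (hd : 0 < d) :
    |∑ n ∈ Ioc m (m + k), (if d ∣ n then (1 : ℝ) else 0) - k / d| ≤ 1 := by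
  have h1 : ∀ N : ℕ, ∑ n ∈ Ioc 0 N, (if d ∣ n then (1 : ℝ) else 0) = ((N / d : ℕ) : ℝ) := by
    intro N
    rw [← Finset.sum_filter, sum_const, nsmul_eq_mul, mul_one, Nat.Ioc_filter_dvd_card_eq_div]
  have h2 : ∑ n ∈ Ioc m (m + k), (if d ∣ n then (1 : ℝ) else 0)
      = (((m + k) / d : ℕ) : ℝ) - ((m / d : ℕ) : ℝ) := by
    rw [← h1, ← h1, ← Finset.sum_Ioc_consecutive _ (Nat.zero_le m) (Nat.le_add_right m k)]
    ring
  have hd' : (0 : ℝ) < d := by exact_mod_cast hd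
  have h3 : ∀ N : ℕ, ((N / d : ℕ) : ℝ) = N / d - ((N % d : ℕ) : ℝ) / d := by
    intro N
    have := Nat.div_add_mod N d
    have h : (d : ℝ) * ((N / d : ℕ) : ℝ) + ((N % d : ℕ) : ℝ) = N := by exact_mod_cast this
    field_simp
    linarith
  have h4 : ∀ N : ℕ, 0 ≤ ((N % d : ℕ) : ℝ) / d ∧ ((N % d : ℕ) : ℝ) / d ≤ 1 := by
    intro N
    have : ((N % d : ℕ) : ℝ) ≤ d := by exact_mod_cast (Nat.mod_lt N hd).le
    exact ⟨by positivity, by rw [div_le_one hd']; exact this⟩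
  have h5 := h4 (m + k)
  have h6 := h4 m
  rw [h2, h3, h3, abs_le]
  push_cast
  rw [add_div]
  constructor <;> linarith [h5.1, h5.2, h6.1, h6.2]

lemma Rep.sum_bound {P : Finset ℕ} {g : ℕ → ℝ} {μ e : ℝ} (hg : Rep P g μ e) (m k : ℕ) :
    |∑ n ∈ Ioc m (m + k), g n - k * μ| ≤ e := by
  obtain ⟨ι, s, d, c, h1, h2, h3, h4⟩ := hg
  have h5 : ∑ n ∈ Ioc m (m + k), g n - k * μ
      = ∑ i ∈ s, c i * (∑ n ∈ Ioc m (m + k), (if d i ∣ n then (1 : ℝ) else 0) - k / d i) := by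
    simp_rw [h2, h3]
    rw [sum_comm, mul_sum, ← sum_sub_distrib]
    apply sum_congr rfl
    intro i _
    rw [mul_sub, mul_sum]
    ring
  rw [h5]
  refine (abs_sum_le_sum_abs _ _).trans (le_trans ?_ h4)
  apply sum_le_sum
  intro i hi
  rw [abs_mul]
  have := count_dvd m k (d i) (h1 i hi).1
  nlinarith [abs_nonneg (c i)]

/-- divisibility indicator -/
noncomputable def ui (n : ℕ) (p : ℕ) : ℝ := if p ∣ n then 1 else 0

lemma ui_nonneg (n p : ℕ) : 0 ≤ ui n p := by unfold ui; split_ifs <;> norm_num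
lemma ui_le_one (n p : ℕ) : ui n p ≤ 1 := by unfold ui; split_ifs <;> norm_num

/-- upper bound function for a block -/
noncomputable def yb (T : Finset ℕ) (r : ℕ) (u : ℕ → ℝ) : ℝ :=
  ∑ A ∈ T.powerset with A.card < r, (-1 : ℝ) ^ A.card * ∏ p ∈ A, u p

/-- the `r`-th elementary symmetric function -/
noncomputable def wb (T : Finset ℕ) (r : ℕ) (u : ℕ → ℝ) : ℝ :=
  ∑ A ∈ T.powerset with A.card = r, ∏ p ∈ A, u p

lemma prod_ui {A : Finset ℕ} (hA : ∀ p ∈ A, p.Prime) (n : ℕ) :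
    ∏ p ∈ A, ui n p = if (∏ p ∈ A, p) ∣ n then 1 else 0 := by
  by_cases h : (∏ p ∈ A, p) ∣ n
  · rw [if_pos h]
    apply prod_eq_one
    intro p hp
    rw [ui, if_pos ((dvd_prod_of_mem _ hp).trans h)]
  · rw [if_neg h]
    by_contra hne
    apply h
    apply Finset.prod_primes_dvd
    · intro p hp
      exact (hA p hp).prime
    · intro p hp
      by_contra hpn
      apply hne
      apply prod_eq_zero hp
      rw [ui, if_neg hpn]

lemma rep_general {T : Finset ℕ} (hT : ∀ p ∈ T, p.Prime) (F : Finset (Finset ℕ))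
    (hF : F ⊆ T.powerset) (c : Finset ℕ → ℝ) (hc : ∀ A, |c A| ≤ 1) :
    Rep T (fun n => ∑ A ∈ F, c A * ∏ p ∈ A, ui n p) (∑ A ∈ F, c A * ∏ p ∈ A, (1 / (p : ℝ)))
      F.card := by
  refine ⟨Finset ℕ, F, fun A => ∏ p ∈ A, p, c, ?_, ?_, ?_, ?_⟩
  · intro A hA
    have hAT : A ⊆ T := mem_powerset.1 (hF hA)
    refine ⟨prod_pos fun p hp => (hT p (hAT hp)).pos, fun q hq hqd => ?_⟩
    obtain ⟨p, hp, hqp⟩ := (Prime.dvd_finsetProd_iff hq.prime _).1 hqd
    rw [(Nat.prime_dvd_prime_iff_eq hq (hT p (hAT hp))).1 hqp]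
    exact hAT hp
  · intro n
    apply sum_congr rfl
    intro A hA
    have hAT : A ⊆ T := mem_powerset.1 (hF hA)
    rw [prod_ui (fun p hp => hT p (hAT hp))]
  · apply sum_congr rfl
    intro A _
    rw [div_eq_mul_inv (c A)]
    push_cast
    rw [← prod_inv_distrib]
    simp only [one_div]
  · calc ∑ A ∈ F, |c A| ≤ ∑ A ∈ F, (1 : ℝ) := sum_le_sum fun A _ => hc A
      _ = F.card := by simp

end Pool.Agent.H446R2
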