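import Pool.Agent.H446R2.BrunA
import Pool.Agent.Helper742.Brun

set_option autoImplicit false

namespace Pool.Agent.H446R2

open Finset Pool.Agent.Helper742

lemma E'_eq_yb (T : Finset ℕ) (r : ℕ) (u : ℕ → ℝ) : E' u r T = yb T r u := rfl

lemma E'_succ (u : ℕ → ℝ) (r : ℕ) (T : Finset ℕ) :
    E' u (r + 1) T = E' u r T + (-1 : ℝ) ^ r * wb T r u := by
  rw [E', E', wb, mul_sum, Finset.sum_filter, Finset.sum_filter, Finset.sum_filter,
    ← Finset.sum_add_distrib]
  apply Finset.sum_congr rfl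
  intro A _
  rcases lt_trichotomy A.card r with h | h | h
  · rw [if_pos h, if_pos (by omega), if_neg (by omega)]; ring
  · rw [if_pos (by omega), if_neg (by omega), if_pos h, h]; ring
  · rw [if_neg (by omega), if_neg (by omega), if_neg (by omega)]; ring

lemma yb_ge (T : Finset ℕ) (r : ℕ) (hr : Odd r) (u : ℕ → ℝ) (h0 : ∀ p ∈ T, 0 ≤ u p)
    (h1 : ∀ p ∈ T, u p ≤ 1) : ∏ p ∈ T, (1 - u p) ≤ yb T r u :=
  bonf_odd u T h0 h1 r hr

lemma yb_le (T : Finset ℕ) (r : ℕ) (hr : Odd r) (u : ℕ → ℝ) (h0 : ∀ p ∈ T, 0 ≤ u p)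
    (h1 : ∀ p ∈ T, u p ≤ 1) : yb T r u ≤ ∏ p ∈ T, (1 - u p) + wb T r u := by
  have h := bonf_even u T h0 h1 (r + 1) hr.add_one
  rw [E'_succ, hr.neg_one_pow, E'_eq_yb] at h
  linarith

lemma wb_nonneg (T : Finset ℕ) (r : ℕ) (u : ℕ → ℝ) (h0 : ∀ p ∈ T, 0 ≤ u p) : 0 ≤ wb T r u := by
  apply sum_nonneg
  intro A hA
  rw [mem_filter, mem_powerset] at hA
  exact prod_nonneg fun p hp => h0 p (hA.1 hp)

lemma wb_le (T : Finset ℕ) (r : ℕ) (u : ℕ → ℝ) (h0 : ∀ p ∈ T, 0 ≤ u p) :
    wb T r u ≤ (1 / 2 : ℝ) ^ r * Real.exp (2 * ∑ p ∈ T, u p) := by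
  have h4 : wb T r u ≤ (1 / 2 : ℝ) ^ r * ∏ p ∈ T, (1 + 2 * u p) := by
    rw [wb, Finset.prod_one_add, Finset.mul_sum, Finset.sum_filter]
    apply Finset.sum_le_sum
    intro A hA
    rw [Finset.mem_powerset] at hA
    have hpr : 0 ≤ ∏ p ∈ A, u p := Finset.prod_nonneg (fun p hp => h0 p (hA hp))
    rw [Finset.prod_mul_distrib, Finset.prod_const]
    split_ifs with h
    · rw [h, ← mul_assoc, ← mul_pow]; norm_num
    · positivity
  have h5 : ∏ p ∈ T, (1 + 2 * u p) ≤ Real.exp (2 * ∑ p ∈ T, u p) := by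
    rw [Finset.mul_sum, Real.exp_sum]
    apply Finset.prod_le_prod
    · intro p hp
      have := h0 p hp
      positivity
    · intro p hp
      have := Real.add_one_le_exp (2 * u p)
      linarith
  exact h4.trans (mul_le_mul_of_nonneg_left h5 (by positivity))

/-- local densities -/
noncomputable def dn (p : ℕ) : ℝ := 1 / (p : ℝ)

lemma rep_yb {T : Finset ℕ} (hT : ∀ p ∈ T, p.Prime) (r : ℕ) :
    Rep T (fun n => yb T r (ui n)) (yb T r dn) ((T.powerset.filter (fun A => A.card < r)).card) :=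
  rep_general hT _ (filter_subset _ _) (fun A => (-1 : ℝ) ^ A.card) (fun A => by
    rw [abs_pow, abs_neg, abs_one, one_pow])

lemma rep_wb {T : Finset ℕ} (hT : ∀ p ∈ T, p.Prime) (r : ℕ) :
    Rep T (fun n => wb T r (ui n)) (wb T r dn) ((T.powerset.filter (fun A => A.card = r)).card) := by
  have h := rep_general hT (T.powerset.filter (fun A => A.card = r)) (filter_subset _ _)
    (fun _ => 1) (fun A => by simp)
  simp only [one_mul] at h
  exact h

lemma rep_one : Rep ∅ (fun _ => 1) 1 1 :=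
  ⟨Unit, univ, fun _ => 1, fun _ => 1, fun _ _ => ⟨one_pos, fun q hq hqd => by
    exfalso; exact hq.one_lt.ne' (Nat.dvd_one.1 hqd)⟩, fun n => by simp, by simp, by simp⟩

/-- number of small subsets -/
noncomputable def Nc (T : Finset ℕ) (r : ℕ) : ℝ :=
  ((T.powerset.filter (fun A => A.card < r)).card : ℝ)
    + ((T.powerset.filter (fun A => A.card = r)).card : ℝ)

theorem blocks (T : ℕ → Finset ℕ) (r : ℕ → ℕ) (hT : ∀ i, ∀ p ∈ T i, p.Prime)
    (hdisj : ∀ i j, i < j → Disjoint (T i) (T j)) (hr : ∀ i, Odd (r i))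
    (hV : ∀ i, 0 < yb (T i) (r i) dn) (I : ℕ) :
    ∃ U L : ℕ → ℝ,
      Rep ((range I).biUnion T) U (∏ i ∈ range I, yb (T i) (r i) dn)
        (∏ i ∈ range I, Nc (T i) (r i)) ∧
      Rep ((range I).biUnion T) L ((∏ i ∈ range I, yb (T i) (r i) dn)
          * (1 - ∑ i ∈ range I, wb (T i) (r i) dn / yb (T i) (r i) dn))
        (∏ i ∈ range I, Nc (T i) (r i)) ∧
      ∀ n, L n ≤ ∏ i ∈ range I, ∏ p ∈ T i, (1 - ui n p) ∧
        ∏ i ∈ range I, ∏ p ∈ T i, (1 - ui n p) ≤ U n := by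
  induction I with
  | zero =>
    refine ⟨fun _ => 1, fun _ => 1, ?_, ?_, fun n => ?_⟩
    · simpa using rep_one
    · simpa using rep_one
    · simp
  | succ I ih =>
    obtain ⟨U, L, hU, hL, hUL⟩ := ih
    have hd : Disjoint ((range I).biUnion T) (T I) := by
      rw [Finset.disjoint_biUnion_left]
      intro i hi
      exact hdisj i I (mem_range.1 hi)
    have hun : (range (I + 1)).biUnion T = (range I).biUnion T ∪ T I := by
      rw [Finset.range_add_one, Finset.biUnion_insert, Finset.union_comm]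
    have hy := rep_yb (hT I) (r I)
    have hw := rep_wb (hT I) (r I)
    have hNc0 : 0 ≤ ∏ i ∈ range I, Nc (T i) (r i) := prod_nonneg fun i _ => by
      unfold Nc; positivity
    refine ⟨fun n => U n * yb (T I) (r I) (ui n),
      fun n => L n * yb (T I) (r I) (ui n) - U n * wb (T I) (r I) (ui n), ?_, ?_, fun n => ?_⟩
    · rw [hun, prod_range_succ, prod_range_succ]
      refine (hU.mul hy hd).mono (subset_refl _) ?_
      apply mul_le_mul_of_nonneg_left _ hNc0
      unfold Nc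
      linarith [Nat.cast_nonneg (α := ℝ) (((T I).powerset.filter (fun A => A.card = r I)).card)]
    · rw [hun, prod_range_succ, prod_range_succ, sum_range_succ]
      have h := (hL.mul hy hd).sub (hU.mul hw hd)
      have e1 : (∏ i ∈ range I, yb (T i) (r i) dn) * yb (T I) (r I) dn *
          (1 - (∑ i ∈ range I, wb (T i) (r i) dn / yb (T i) (r i) dn
            + wb (T I) (r I) dn / yb (T I) (r I) dn))
          = (∏ i ∈ range I, yb (T i) (r i) dn)
          * (1 - ∑ i ∈ range I, wb (T i) (r i) dn / yb (T i) (r i) dn) * yb (T I) (r I) dn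
            - (∏ i ∈ range I, yb (T i) (r i) dn) * wb (T I) (r I) dn := by
        have := (hV I).ne'
        field_simp
        ring
      rw [e1]
      refine h.mono (subset_refl _) ?_
      unfold Nc
      rw [mul_add]
    · rw [prod_range_succ]
      obtain ⟨h1, h2⟩ := hUL n
      have hp0 : 0 ≤ ∏ i ∈ range I, ∏ p ∈ T i, (1 - ui n p) :=
        prod_nonneg fun i _ => prod_nonneg fun p _ => by linarith [ui_le_one n p]
      have hq0 : 0 ≤ ∏ p ∈ T I, (1 - ui n p) :=
        prod_nonneg fun p _ => by linarith [ui_le_one n p]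
      have hy1 := yb_ge (T I) (r I) (hr I) (ui n) (fun p _ => ui_nonneg n p)
        (fun p _ => ui_le_one n p)
      have hy2 := yb_le (T I) (r I) (hr I) (ui n) (fun p _ => ui_nonneg n p)
        (fun p _ => ui_le_one n p)
      have hw0 := wb_nonneg (T I) (r I) (ui n) (fun p _ => ui_nonneg n p)
      set X := ∏ i ∈ range I, ∏ p ∈ T i, (1 - ui n p)
      set x := ∏ p ∈ T I, (1 - ui n p)
      set y := yb (T I) (r I) (ui n)
      set w := wb (T I) (r I) (ui n)
      constructor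
      · have a1 : X * (y - w) ≤ X * x := mul_le_mul_of_nonneg_left (by linarith) hp0
        have a2 : L n * y ≤ X * y := mul_le_mul_of_nonneg_right h1 (hq0.trans hy1)
        have a3 : X * w ≤ U n * w := mul_le_mul_of_nonneg_right h2 hw0
        show L n * y - U n * w ≤ X * x
        nlinarith
      · exact mul_le_mul h2 hy1 hq0 (hp0.trans h2)

/-- `1 - x ≥ exp (-2x)` on `[0, 1/2]`. -/
lemma one_sub_ge {x : ℝ} (hx0 : 0 ≤ x) (hx : x ≤ 1 / 2) : Real.exp (-(2 * x)) ≤ 1 - x := by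
  have h1 : 2 * x + 1 ≤ Real.exp (2 * x) := Real.add_one_le_exp (2 * x)
  rw [Real.exp_neg]
  have h2 : (Real.exp (2 * x))⁻¹ ≤ (2 * x + 1)⁻¹ := inv_anti₀ (by linarith) h1
  refine h2.trans ?_
  rw [inv_le_iff_one_le_mul₀ (by linarith)]
  nlinarith

lemma yb_dn_ge {T : Finset ℕ} (hT : ∀ p ∈ T, p.Prime) (r : ℕ) (hr : Odd r) :
    Real.exp (-(2 * ∑ p ∈ T, dn p)) ≤ yb T r dn := by
  have hdn : ∀ p ∈ T, 0 ≤ dn p ∧ dn p ≤ 1 / 2 := by
    intro p hp
    have h2 : (2 : ℝ) ≤ p := by exact_mod_cast (hT p hp).two_le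
    unfold dn
    exact ⟨by positivity, one_div_le_one_div_of_le (by norm_num) h2⟩
  refine le_trans ?_ (yb_ge T r hr dn (fun p hp => (hdn p hp).1)
    (fun p hp => by linarith [(hdn p hp).2]))
  rw [mul_sum, ← sum_neg_distrib, Real.exp_sum]
  apply prod_le_prod
  · intro p _; positivity
  · intro p hp
    exact one_sub_ge (hdn p hp).1 (hdn p hp).2

end Pool.Agent.H446R2
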