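import Pool.Agent.H446R2.CycleSum

set_option autoImplicit false

/-!
Counting cycles and cycle lengths.
-/

namespace Pool.Agent.H446R2.CS

open Finset Filter Topology

variable {T : ℤ → ℤ} {d β : ℕ} {e : ℤ → ℕ} {K : ℝ}

/-- few cycles have a length outside a Bohr set -/
theorem Model.count (M : Model T d β e K) : ∃ C : ℝ, 0 < C ∧ ∀ (P : ℕ) (ε : ℝ), 1 ≤ P → 0 < ε → ε ≤ 1 →
    ∀ F : Finset (Finset ℤ), (∀ c ∈ F, IsCycle T c ∧ (0 : ℤ) ∉ c ∧ c.card ≤ P ∧
      ∀ k : ℤ, ε ≤ |(c.card : ℝ) * (Real.log d / Real.log β) - k|) →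
    (F.card : ℝ) ≤ C / ε * (1 + Real.log P + Real.log (1 / ε)) := by
  have hK0 : 0 ≤ K := (abs_nonneg _).trans (M.bd 0)
  have hβ1 : (1 : ℝ) < β := by exact_mod_cast (by have := M.hβ; omega : 1 < β)
  have hlβ : 0 < Real.log β := Real.log_pos hβ1
  set A : ℝ := K * (1 + K) / Real.log β with hA
  have hA0 : 0 ≤ A := by positivity
  set A' : ℝ := A + 1 with hA'
  have hA'1 : 1 ≤ A' := by linarith
  have hl4 : 0 ≤ Real.log (4 * A') := Real.log_nonneg (by linarith)
  refine ⟨2 * A' * (3 + 2 * Real.log (4 * A')), by positivity, ?_⟩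
  intro P ε hP hε hε1 F hF
  have hPr : (1 : ℝ) ≤ P := by exact_mod_cast hP
  have hlP : 0 ≤ Real.log P := Real.log_nonneg hPr
  have hlε : 0 ≤ Real.log (1 / ε) := Real.log_nonneg (by rw [le_div_iff₀ hε]; linarith)
  rcases F.eq_empty_or_nonempty with h0 | hne
  · rw [h0, card_empty, Nat.cast_zero]
    positivity
  set n : ℝ := (F.card : ℝ) with hn
  have hn1 : 1 ≤ n := by
    have : 1 ≤ F.card := card_pos.2 hne
    rw [hn]; exact_mod_cast this
  have h1 := M.sum_cycles F (fun c hc => ⟨(hF c hc).1, (hF c hc).2.1⟩) hne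
  have h2 : n * (ε * Real.log β) ≤
      ∑ c ∈ F, |(c.card : ℝ) * Real.log d - ((∑ x ∈ c, e x : ℕ) : ℝ) * Real.log β| := by
    rw [hn, ← nsmul_eq_mul, ← sum_const]
    apply sum_le_sum
    intro c hc
    have h3 := (hF c hc).2.2.2 ((∑ x ∈ c, e x : ℕ) : ℤ)
    have h4 : (c.card : ℝ) * Real.log d - ((∑ x ∈ c, e x : ℕ) : ℝ) * Real.log β =
        ((c.card : ℝ) * (Real.log d / Real.log β) - (((∑ x ∈ c, e x : ℕ) : ℤ) : ℝ)) * Real.log β := by
      rw [sub_mul, mul_assoc, div_mul_cancel₀ _ hlβ.ne', Int.cast_natCast]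
    rw [h4, abs_mul, abs_of_pos hlβ]
    exact mul_le_mul_of_nonneg_right h3 hlβ.le
  have h5 : ∑ c ∈ F, (c.card : ℝ) ≤ n * P := by
    rw [hn, ← nsmul_eq_mul, ← sum_const]
    apply sum_le_sum
    intro c hc
    exact_mod_cast (hF c hc).2.2.1
  have h6 : 0 < ∑ c ∈ F, (c.card : ℝ) := by
    apply sum_pos _ hne
    intro c hc
    exact_mod_cast card_pos.2 (hF c hc).1.nonempty
  have h7 : Real.log (∑ c ∈ F, (c.card : ℝ)) ≤ Real.log n + Real.log P := by
    rw [← Real.log_mul (by linarith) (by linarith)]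
    exact Real.log_le_log h6 h5
  have h8 : n * ε ≤ A * (3 + 2 * (Real.log n + Real.log P)) := by
    have h9 : n * (ε * Real.log β) ≤ K * (1 + K) * (3 + 2 * (Real.log n + Real.log P)) := by
      refine (h2.trans h1).trans ?_
      apply mul_le_mul_of_nonneg_left _ (by positivity)
      linarith
    rw [hA, div_mul_eq_mul_div, le_div_iff₀ hlβ]
    linarith
  -- `log n ≤ n ε / (4 A') + log (4 A' / ε)`
  have h10 : Real.log n ≤ n * ε / (4 * A') + Real.log (4 * A') + Real.log (1 / ε) := by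
    have hA4 : 4 * A' ≠ 0 := by positivity
    have h11 : (n * ε / (4 * A')) * (4 * A') * (1 / ε) = n := by
      rw [div_mul_cancel₀ _ hA4, mul_one_div, mul_div_cancel_right₀ _ hε.ne']
    have h12 : Real.log n = Real.log (n * ε / (4 * A')) + Real.log (4 * A') + Real.log (1 / ε) := by
      rw [← Real.log_mul (by positivity) (by positivity), ← Real.log_mul (by positivity) (by positivity),
        h11]
    rw [h12]
    have h13 := Real.log_le_sub_one_of_pos (show 0 < n * ε / (4 * A') by positivity)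
    linarith
  have hln : 0 ≤ Real.log n := Real.log_nonneg hn1
  have h14 : n * ε ≤ A' * (3 + 2 * (Real.log n + Real.log P)) := by
    refine h8.trans ?_
    apply mul_le_mul_of_nonneg_right _ (by positivity)
    linarith
  have h15 : A' * (2 * Real.log n) ≤ n * ε / 2 + A' * (2 * Real.log (4 * A') + 2 * Real.log (1 / ε)) := by
    have h16 := mul_le_mul_of_nonneg_left h10 (show 0 ≤ 2 * A' by positivity)
    have h17 : 2 * A' * (n * ε / (4 * A')) = n * ε / 2 := by
      clear_value n A'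
      field_simp
      norm_num
    nlinarith
  have h18 : n * ε / 2 ≤ A' * (3 + 2 * Real.log P + 2 * Real.log (4 * A') + 2 * Real.log (1 / ε)) := by
    nlinarith
  rw [div_mul_eq_mul_div, le_div_iff₀ hε]
  have h19 : A' * (3 + 2 * Real.log P + 2 * Real.log (4 * A') + 2 * Real.log (1 / ε)) ≤
      A' * ((3 + 2 * Real.log (4 * A')) * (1 + Real.log P + Real.log (1 / ε))) := by
    apply mul_le_mul_of_nonneg_left _ (by linarith)
    nlinarith [mul_nonneg hl4 hlP, mul_nonneg hl4 hlε]
  linarith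

/-- a finite set of naturals `≤ P` whose distinct elements differ by at least `q` -/
theorem card_spaced (S : Finset ℕ) (P q : ℕ) (hq : 1 ≤ q) (hS : ∀ x ∈ S, x ≤ P)
    (hsp : ∀ x ∈ S, ∀ y ∈ S, x < y → x + q ≤ y) : S.card ≤ P / q + 1 := by
  have h1 : S.image (fun x => x / q) ⊆ range (P / q + 1) := by
    intro z hz
    obtain ⟨x, hx, rfl⟩ := mem_image.1 hz
    rw [mem_range]
    exact Nat.lt_succ_of_le (Nat.div_le_div_right (hS x hx))
  have h2 : Set.InjOn (fun x => x / q) (S : Set ℕ) := by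
    have key : ∀ x ∈ S, ∀ y ∈ S, x < y → x / q ≠ y / q := by
      intro x hx y hy hxy h
      have h3 := hsp x hx y hy hxy
      have h4 : (x + q) / q ≤ y / q := Nat.div_le_div_right h3
      rw [Nat.add_div_right _ (by omega)] at h4
      omega
    intro x hx y hy h
    rcases lt_trichotomy x y with h3 | h3 | h3
    · exact absurd h (key x hx y hy h3)
    · exact h3
    · exact absurd h.symm (key y hy x hx h3)
  rw [← card_image_of_injOn h2, ← card_range (P / q + 1)]
  exact card_le_card h1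

/-- the numbers `p ≤ P` which are lengths of cycles -/
def lengths (T : ℤ → ℤ) (P : ℕ) : Set ℕ := {p | p ≤ P ∧ ∃ c, IsCycle T c ∧ c.card = p}

/-- lengths of cycles: a Bohr set of `≤ P / q + 1` elements, and few others -/
theorem Model.lengths_le (M : Model T d β e K) : ∃ C : ℝ, 0 < C ∧ ∀ (P q : ℕ) (ε : ℝ), 1 ≤ P → 1 ≤ q →
    0 < ε → ε ≤ 1 →
    (∀ j : ℕ, 1 ≤ j → j < q → ∀ k : ℤ, 2 * ε ≤ |(j : ℝ) * (Real.log d / Real.log β) - k|) →
    ((lengths T P).ncard : ℝ) ≤ (P : ℝ) / q + 2 + C / ε * (1 + Real.log P + Real.log (1 / ε)) := by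
  classical
  obtain ⟨C, hC, hcount⟩ := M.count
  refine ⟨C, hC, ?_⟩
  intro P q ε hP hq hε hε1 hsep
  set α := Real.log d / Real.log β with hα
  set L : Finset ℕ := (range (P + 1)).filter (fun p => ∃ c, IsCycle T c ∧ c.card = p) with hL
  have hset : lengths T P = (L : Set ℕ) := by
    ext p
    rw [hL, lengths]
    simp only [Set.mem_ofPred_eq, coe_filter, mem_range, Nat.lt_succ_iff]
  rw [hset, Set.ncard_coe_finset]
  -- lengths of cycles through zero
  set L0 := L.filter (fun p => ∃ c, IsCycle T c ∧ (0 : ℤ) ∈ c ∧ c.card = p) with hL0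
  set L1 := L.filter (fun p => (∃ c, IsCycle T c ∧ (0 : ℤ) ∉ c ∧ c.card = p) ∧
    ∀ k : ℤ, ε ≤ |(p : ℝ) * α - k|) with hL1
  set L2 := L.filter (fun p : ℕ => ∃ k : ℤ, |(p : ℝ) * α - k| < ε) with hL2
  have hsub : L ⊆ L0 ∪ L1 ∪ L2 := by
    intro p hp
    have hp2 := (mem_filter.1 hp).2
    obtain ⟨c, hc, hcp⟩ := hp2
    rw [mem_union, mem_union]
    by_cases h1 : ∃ k : ℤ, |(p : ℝ) * α - k| < ε
    · right; exact mem_filter.2 ⟨hp, h1⟩
    · left
      by_cases h2 : (0 : ℤ) ∈ c
      · left; exact mem_filter.2 ⟨hp, c, hc, h2, hcp⟩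
      · right
        refine mem_filter.2 ⟨hp, ⟨c, hc, h2, hcp⟩, ?_⟩
        intro k
        by_contra h
        exact h1 ⟨k, not_le.1 h⟩
  have hc0 : L0.card ≤ 1 := by
    rw [card_le_one]
    intro p hp p' hp'
    obtain ⟨c, hc, h0, rfl⟩ := (mem_filter.1 hp).2
    obtain ⟨c', hc', h0', rfl⟩ := (mem_filter.1 hp').2
    rw [hc.eq_of_mem hc' h0 h0']
  have hc1 : (L1.card : ℝ) ≤ C / ε * (1 + Real.log P + Real.log (1 / ε)) := by
    have hch : ∀ p : ℕ, ∃ c : Finset ℤ, p ∈ L1 → IsCycle T c ∧ (0 : ℤ) ∉ c ∧ c.card = p := by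
      intro p
      by_cases hp : p ∈ L1
      · obtain ⟨c, hc⟩ := ((mem_filter.1 hp).2).1
        exact ⟨c, fun _ => hc⟩
      · exact ⟨∅, fun h => absurd h hp⟩
    choose f hf using hch
    have hinj : Set.InjOn f (L1 : Set ℕ) := by
      intro p hp p' hp' h
      rw [← (hf p hp).2.2, ← (hf p' hp').2.2, h]
    rw [← card_image_of_injOn hinj]
    apply hcount P ε hP hε hε1
    intro c hc
    obtain ⟨p, hp, rfl⟩ := mem_image.1 hc
    have h1 := hf p hp
    have h2 := mem_filter.1 hp
    have h3 := mem_filter.1 h2.1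
    refine ⟨h1.1, h1.2.1, ?_, ?_⟩
    · rw [h1.2.2]
      have := mem_range.1 h3.1
      omega
    · rw [h1.2.2]
      exact h2.2.2
  have hc2 : (L2.card : ℝ) ≤ (P : ℝ) / q + 1 := by
    have h1 : L2.card ≤ P / q + 1 := by
      apply card_spaced _ _ _ hq
      · intro x hx
        have := mem_range.1 (mem_filter.1 (mem_filter.1 hx).1).1
        omega
      · intro x hx y hy hxy
        by_contra h
        obtain ⟨k, hk⟩ := (mem_filter.1 hx).2
        obtain ⟨k', hk'⟩ := (mem_filter.1 hy).2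
        have h2 := hsep (y - x) (by omega) (by omega) (k' - k)
        have h3 : ((y - x : ℕ) : ℝ) * α - ((k' - k : ℤ) : ℝ) =
            ((y : ℝ) * α - k') - ((x : ℝ) * α - k) := by
          rw [Nat.cast_sub hxy.le]
          push_cast
          ring
        rw [h3] at h2
        have h4 := abs_sub ((y : ℝ) * α - k') ((x : ℝ) * α - k)
        linarith
    calc (L2.card : ℝ) ≤ ((P / q + 1 : ℕ) : ℝ) := by exact_mod_cast h1
      _ = ((P / q : ℕ) : ℝ) + 1 := by push_cast; ring
      _ ≤ (P : ℝ) / q + 1 := by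
          have := Nat.cast_div_le (α := ℝ) (m := P) (n := q)
          linarith
  have hcard : (L.card : ℝ) ≤ L0.card + L1.card + L2.card := by
    have h1 := (card_le_card hsub).trans ((card_union_le _ _).trans
      (Nat.add_le_add_right (card_union_le _ _) _))
    exact_mod_cast h1
  have hc0' : (L0.card : ℝ) ≤ 1 := by exact_mod_cast hc0
  linarith

/-- separation of the multiples of an irrational number from the integers -/
theorem exists_sep {α : ℝ} (hα : Irrational α) (q : ℕ) : ∃ ε : ℝ, 0 < ε ∧ ε ≤ 1 ∧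
    ∀ j : ℕ, 1 ≤ j → j < q → ∀ k : ℤ, 2 * ε ≤ |(j : ℝ) * α - k| := by
  induction q with
  | zero => exact ⟨1, one_pos, le_rfl, fun j _ h => absurd h (by omega)⟩
  | succ q ih =>
    obtain ⟨ε, h0, h1, h2⟩ := ih
    rcases Nat.eq_zero_or_pos q with hq | hq
    · exact ⟨ε, h0, h1, fun j hj hj' => absurd hj' (by omega)⟩
    · set η : ℝ := |(q : ℝ) * α - round ((q : ℝ) * α)| with hη
      have hη0 : 0 < η := by
        rw [hη, abs_pos, sub_ne_zero]
        intro h
        have h3 : Irrational ((q : ℝ) * α) := by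
          have := hα.natCast_mul (m := q) (by omega)
          exact this
        exact h3.ne_int _ h
      refine ⟨min ε (η / 2), lt_min h0 (by linarith), (min_le_left _ _).trans h1, ?_⟩
      intro j hj hj' k
      rcases Nat.lt_succ_iff_lt_or_eq.1 hj' with h3 | h3
      · have := h2 j hj h3 k
        have := min_le_left ε (η / 2)
        linarith
      · rw [h3]
        have h4 := round_le ((q : ℝ) * α) k
        have := min_le_right ε (η / 2)
        linarith

/-- the set of the lengths of cycles has density zero -/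
theorem Model.density (M : Model T d β e K) (hirr : Irrational (Real.log d / Real.log β)) :
    Tendsto (fun P : ℕ => ((lengths T P).ncard : ℝ) / P) atTop (𝓝 0) := by
  obtain ⟨C, hC, hlen⟩ := M.lengths_le
  rw [Metric.tendsto_atTop]
  intro δ hδ
  obtain ⟨q, hq⟩ := exists_nat_gt (2 / δ)
  have hq0 : (0 : ℝ) < q := lt_trans (by positivity) hq
  have hq1 : 1 ≤ q := by exact_mod_cast hq0
  obtain ⟨ε, hε0, hε1, hsep⟩ := exists_sep hirr q
  -- the remaining terms are `o(P)`
  have hlim : Tendsto (fun P : ℕ => (2 + C / ε * (1 + Real.log P + Real.log (1 / ε))) / (P : ℝ))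
      atTop (𝓝 0) := by
    have h1 : Tendsto (fun x : ℝ => (2 + C / ε * (1 + Real.log x + Real.log (1 / ε))) / x) atTop (𝓝 0) := by
      have h2 : Tendsto (fun x : ℝ => Real.log x / x) atTop (𝓝 0) := by
        have := Real.isLittleO_log_id_atTop.tendsto_div_nhds_zero
        simpa using this
      have h3 : Tendsto (fun x : ℝ => (2 + C / ε * (1 + Real.log (1 / ε))) / x) atTop (𝓝 0) :=
        tendsto_const_nhds.div_atTop tendsto_id
      have h4 := h3.add (h2.const_mul (C / ε))
      rw [mul_zero, add_zero] at h4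
      refine h4.congr (fun x => ?_)
      ring
    exact h1.comp tendsto_natCast_atTop_atTop
  rw [Metric.tendsto_atTop] at hlim
  obtain ⟨N, hN⟩ := hlim (δ / 2) (by linarith)
  refine ⟨max N 1, fun P hP => ?_⟩
  have hPN : N ≤ P := (le_max_left _ _).trans hP
  have hP1 : 1 ≤ P := (le_max_right _ _).trans hP
  have hPr : (0 : ℝ) < P := by exact_mod_cast hP1
  have h1 := hlen P q ε hP1 hq1 hε0 hε1 hsep
  have h2 := hN P hPN
  rw [Real.dist_eq, sub_zero] at h2 ⊢
  have h3 := (abs_lt.1 h2).2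
  rw [abs_of_nonneg (by positivity)]
  have h4 : ((lengths T P).ncard : ℝ) / P ≤
      1 / q + (2 + C / ε * (1 + Real.log P + Real.log (1 / ε))) / (P : ℝ) := by
    rw [div_le_iff₀ hPr, add_mul, div_mul_cancel₀ _ hPr.ne', one_div, inv_mul_eq_div]
    linarith
  have h5 : 1 / (q : ℝ) < δ / 2 := by
    rw [div_lt_div_iff₀ hq0 (by norm_num)]
    rw [div_lt_iff₀ hδ] at hq
    linarith
  linarith

end Pool.Agent.H446R2.CS
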