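import Pool.Agent.H446R2.CycleThree

set_option autoImplicit false

/-!
A square root bound for the number of cycle lengths on infinitely many scales.
-/

namespace Pool.Agent.H446R2.CS

open Finset Filter Topology

variable {T : ℤ → ℤ} {d β : ℕ} {e : ℤ → ℕ} {K : ℝ}

/-- distance to the nearest integer -/
noncomputable def nd (x : ℝ) : ℝ := |x - round x|

theorem nd_le (x : ℝ) (k : ℤ) : nd x ≤ |x - k| := round_le x k

theorem exists_small {α : ℝ} (δ : ℝ) (hδ : 0 < δ) : ∃ q : ℕ, 1 ≤ q ∧ nd ((q : ℝ) * α) < δ := by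
  obtain ⟨n, hn⟩ := exists_nat_gt (1 / δ)
  have hn0 : (0 : ℝ) < n := lt_trans (by positivity) hn
  have hn1 : 0 < n := by exact_mod_cast hn0
  obtain ⟨k, hk0, hkn, hk⟩ := Real.exists_nat_abs_mul_sub_round_le α hn1
  refine ⟨k, hk0, lt_of_le_of_lt hk ?_⟩
  rw [div_lt_iff₀ (by linarith)]
  rw [div_lt_iff₀ hδ] at hn
  nlinarith

/-- infinitely many `q` for which the multiples `j α`, `1 ≤ j < q`, are `1/(2q)`-far from `ℤ` -/
theorem exists_good {α : ℝ} (hα : Irrational α) (N : ℕ) : ∃ q : ℕ, N < q ∧ 2 ≤ q ∧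
    ∀ j : ℕ, 1 ≤ j → j < q → ∀ k : ℤ, 1 / (2 * (q : ℝ)) ≤ |(j : ℝ) * α - k| := by
  classical
  obtain ⟨ε, hε0, hε1, hsep⟩ := exists_sep hα (N + 2)
  have hex : ∃ q : ℕ, 1 ≤ q ∧ nd ((q : ℝ) * α) < 2 * ε := exists_small (2 * ε) (by linarith)
  set q := Nat.find hex with hq
  obtain ⟨hq1, hqs⟩ := Nat.find_spec hex
  have hmin : ∀ j : ℕ, 1 ≤ j → j < q → 2 * ε ≤ nd ((j : ℝ) * α) := by
    intro j hj hjq
    have := Nat.find_min hex hjq
    by_contra h
    exact this ⟨hj, not_le.1 h⟩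
  have hqN : N + 1 < q := by
    by_contra h
    have h1 := hsep q hq1 (by omega) (round ((q : ℝ) * α))
    have h2 : |(q : ℝ) * α - round ((q : ℝ) * α)| < 2 * ε := hqs
    exact absurd h1 (not_le.2 h2)
  refine ⟨q, by omega, by omega, ?_⟩
  -- the best denominator below `q`
  obtain ⟨q', hq'mem, hq'min⟩ := Finset.exists_min_image (Ico 1 q) (fun j : ℕ => nd ((j : ℝ) * α))
    ⟨1, mem_Ico.2 ⟨le_rfl, by omega⟩⟩
  rw [mem_Ico] at hq'mem
  have hlt : nd ((q : ℝ) * α) < nd ((q' : ℝ) * α) :=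
    lt_of_lt_of_le hqs (hmin q' hq'mem.1 hq'mem.2)
  have hqr : (0 : ℝ) < q := by exact_mod_cast (by omega : 0 < q)
  have hq'r : (0 : ℝ) < q' := by exact_mod_cast (by omega : 0 < q')
  have hq'q : (q' : ℝ) < q := by exact_mod_cast hq'mem.2
  set p : ℤ := round ((q : ℝ) * α) with hp
  set p' : ℤ := round ((q' : ℝ) * α) with hp'
  have hne : (q : ℤ) * p' - q' * p ≠ 0 := by
    intro h
    have h1 : (q : ℝ) * p' = q' * p := by
      have : (q : ℤ) * p' = q' * p := by linarith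
      exact_mod_cast this
    have h2 : (q : ℝ) * ((q' : ℝ) * α - p') = q' * ((q : ℝ) * α - p) := by
      rw [mul_sub, mul_sub, h1]; ring
    have h3 : (q : ℝ) * nd ((q' : ℝ) * α) = q' * nd ((q : ℝ) * α) := by
      have := congrArg abs h2
      rw [abs_mul, abs_mul, abs_of_pos hqr, abs_of_pos hq'r] at this
      exact this
    have h4 : 0 ≤ nd ((q : ℝ) * α) := abs_nonneg _
    nlinarith
  have h1 : (1 : ℝ) ≤ |((q : ℤ) * p' - q' * p : ℤ)| := by exact_mod_cast Int.one_le_abs hne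
  have h2 : (((q : ℤ) * p' - q' * p : ℤ) : ℝ) =
      q' * ((q : ℝ) * α - p) - q * ((q' : ℝ) * α - p') := by
    push_cast; ring
  have h3 : |(((q : ℤ) * p' - q' * p : ℤ) : ℝ)| ≤
      q' * nd ((q : ℝ) * α) + q * nd ((q' : ℝ) * α) := by
    rw [h2]
    refine (abs_sub _ _).trans ?_
    rw [abs_mul, abs_mul, abs_of_pos hqr, abs_of_pos hq'r]
    exact le_rfl
  have h4 : 1 ≤ 2 * (q : ℝ) * nd ((q' : ℝ) * α) := by
    have h5 : 0 ≤ nd ((q : ℝ) * α) := abs_nonneg _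
    have h6 : (1 : ℝ) ≤ |(((q : ℤ) * p' - q' * p : ℤ) : ℝ)| := by exact_mod_cast h1
    nlinarith
  intro j hj hjq k
  have h5 := hq'min j (mem_Ico.2 ⟨hj, hjq⟩)
  have h6 := nd_le ((j : ℝ) * α) k
  rw [div_le_iff₀ (by positivity)]
  have h7 : nd ((q' : ℝ) * α) ≤ |(j : ℝ) * α - k| := h5.trans h6
  nlinarith

/-- on infinitely many scales there are at most `O(√P log P)` lengths -/
theorem Model.lengths_sqrt (M : Model T d β e K) (hirr : Irrational (Real.log d / Real.log β)) :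
    ∃ C : ℝ, ∀ N : ℕ, ∃ P : ℕ, N ≤ P ∧
      ((lengths T P).ncard : ℝ) ≤ C * Real.sqrt P * (1 + Real.log P) := by
  obtain ⟨C, hC, hlen⟩ := M.lengths_le
  refine ⟨3 + 4 * C * (1 + Real.log 4 + 1), ?_⟩
  intro N
  obtain ⟨q, hqN, hq2, hsep⟩ := exists_good hirr N
  have hqr : (2 : ℝ) ≤ q := by exact_mod_cast hq2
  have hq0 : (0 : ℝ) < q := by linarith
  refine ⟨q ^ 2, by nlinarith, ?_⟩
  have hε0 : (0 : ℝ) < 1 / (4 * q) := by positivity
  have hε1 : 1 / (4 * (q : ℝ)) ≤ 1 := by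
    rw [div_le_one (by positivity)]; linarith
  have h1 := hlen (q ^ 2) q (1 / (4 * q)) (Nat.one_le_pow _ _ (by omega)) (by omega) hε0 hε1 (by
    intro j hj hjq k
    have := hsep j hj hjq k
    calc 2 * (1 / (4 * (q : ℝ))) = 1 / (2 * (q : ℝ)) := by field_simp; norm_num
      _ ≤ _ := this)
  have hP : ((q ^ 2 : ℕ) : ℝ) = (q : ℝ) ^ 2 := by push_cast; ring
  rw [hP] at h1 ⊢
  have hs : Real.sqrt ((q : ℝ) ^ 2) = q := Real.sqrt_sq hq0.le
  rw [hs]
  have e1 : (q : ℝ) ^ 2 / q = q := by field_simp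
  have e2 : C / (1 / (4 * (q : ℝ))) = 4 * C * q := by field_simp
  have e3 : (1 : ℝ) / (1 / (4 * q)) = 4 * q := by field_simp
  rw [e1, e2, e3, Real.log_mul (by norm_num) hq0.ne', Real.log_pow] at h1
  rw [Real.log_pow]
  have hlq : 0 ≤ Real.log q := Real.log_nonneg (by linarith)
  have hl4 : 0 ≤ Real.log 4 := Real.log_nonneg (by norm_num)
  push_cast at h1 ⊢
  have h2 : 4 * C * q * (1 + 2 * Real.log q + (Real.log 4 + Real.log q)) ≤
      4 * C * q * ((1 + Real.log 4 + 1) * (1 + 2 * Real.log q)) := by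
    apply mul_le_mul_of_nonneg_left _ (by positivity)
    nlinarith [mul_nonneg hl4 hlq]
  have h3 : (q : ℝ) + 2 ≤ 3 * q * (1 + 2 * Real.log q) := by
    nlinarith [mul_nonneg hq0.le hlq]
  calc ((lengths T (q ^ 2)).ncard : ℝ) ≤ _ := h1
    _ ≤ 3 * q * (1 + 2 * Real.log q) + 4 * C * q * ((1 + Real.log 4 + 1) * (1 + 2 * Real.log q)) :=
        add_le_add h3 h2
    _ = _ := by ring

end Pool.Agent.H446R2.CS
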