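import Mathlib

set_option autoImplicit false

/-!
Cycles of maps `T : ℤ → ℤ` which are multiplicatively `x ↦ (β ^ e / d) x` up to a bounded error:
disjoint cycles have a summable defect up to a logarithm.
-/

namespace Pool.Agent.H446R2.CS

open Finset Filter Topology

/-- a cycle, as a finite set -/
def IsCycle (T : ℤ → ℤ) (c : Finset ℤ) : Prop :=
  ∃ x : ℤ, ∃ p : ℕ, 1 ≤ p ∧ T^[p] x = x ∧ c = (range p).image (fun j => T^[j] x)

theorem iter_mod {T : ℤ → ℤ} {x : ℤ} {p : ℕ} (hx : T^[p] x = x) (n : ℕ) :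
    T^[n] x = T^[n % p] x := by
  conv_lhs => rw [← Nat.mod_add_div n p, Function.iterate_add_apply]
  congr 1
  rw [Function.iterate_mul]
  exact Function.iterate_fixed hx _

theorem IsCycle.nonempty {T : ℤ → ℤ} {c : Finset ℤ} (h : IsCycle T c) : c.Nonempty := by
  obtain ⟨x, p, hp, hx, rfl⟩ := h
  exact ⟨x, mem_image.2 ⟨0, mem_range.2 (by omega), rfl⟩⟩

theorem IsCycle.map_mem {T : ℤ → ℤ} {c : Finset ℤ} (h : IsCycle T c) {y : ℤ} (hy : y ∈ c) :
    T y ∈ c := by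
  obtain ⟨x, p, hp, hx, rfl⟩ := h
  obtain ⟨j, _, rfl⟩ := mem_image.1 hy
  refine mem_image.2 ⟨(j + 1) % p, mem_range.2 (Nat.mod_lt _ (by omega)), ?_⟩
  rw [← iter_mod hx, Function.iterate_succ_apply']

theorem IsCycle.trans {T : ℤ → ℤ} {c : Finset ℤ} (h : IsCycle T c) {y z : ℤ} (hy : y ∈ c)
    (hz : z ∈ c) : ∃ j : ℕ, 1 ≤ j ∧ T^[j] y = z := by
  obtain ⟨x, p, hp, hx, rfl⟩ := h
  obtain ⟨i, hi, rfl⟩ := mem_image.1 hy
  obtain ⟨j, hj, rfl⟩ := mem_image.1 hz
  rw [mem_range] at hi hj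
  refine ⟨j + (p - i), by omega, ?_⟩
  rw [← Function.iterate_add_apply, show j + (p - i) + i = j + p by omega,
    Function.iterate_add_apply, hx]

theorem IsCycle.iter_mem {T : ℤ → ℤ} {c : Finset ℤ} (h : IsCycle T c) {y : ℤ} (hy : y ∈ c)
    (j : ℕ) : T^[j] y ∈ c := by
  induction j with
  | zero => exact hy
  | succ j ih => rw [Function.iterate_succ_apply']; exact h.map_mem ih

/-- two cycles with a common element are equal -/
theorem IsCycle.eq_of_mem {T : ℤ → ℤ} {c c' : Finset ℤ} (h : IsCycle T c) (h' : IsCycle T c')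
    {y : ℤ} (hy : y ∈ c) (hy' : y ∈ c') : c = c' := by
  ext z
  constructor
  · intro hz
    obtain ⟨j, _, rfl⟩ := h.trans hy hz
    exact h'.iter_mem hy' j
  · intro hz
    obtain ⟨j, _, rfl⟩ := h'.trans hy' hz
    exact h.iter_mem hy j

theorem IsCycle.image_eq {T : ℤ → ℤ} {c : Finset ℤ} (h : IsCycle T c) : c.image T = c := by
  ext z
  rw [mem_image]
  constructor
  · rintro ⟨y, hy, rfl⟩
    exact h.map_mem hy
  · intro hz
    obtain ⟨j, hj, hjz⟩ := h.trans hz hz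
    refine ⟨T^[j - 1] z, h.iter_mem hz _, ?_⟩
    rw [← Function.iterate_succ_apply' T (j - 1) z, Nat.succ_eq_add_one, Nat.sub_add_cancel hj, hjz]

theorem IsCycle.sum_comp {T : ℤ → ℤ} {c : Finset ℤ} (h : IsCycle T c) (f : ℤ → ℝ) :
    ∑ x ∈ c, f (T x) = ∑ x ∈ c, f x := by
  have hinj : Set.InjOn T c := by
    apply Finset.injOn_of_card_image_eq
    rw [h.image_eq]
  conv_rhs => rw [← h.image_eq]
  rw [sum_image hinj]

/-- the size of the error in one step -/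
theorem step_bound {x y : ℤ} {z : ℤ} {K : ℝ} (hy : y ≠ 0) (hx : x ≠ 0) (hz : |x| ≤ |z|)
    (hK : |((y : ℤ) : ℝ) - z| ≤ K) :
    abs (Real.log |(y : ℝ)| - Real.log |(z : ℝ)|) ≤ K * (1 + K) / |(x : ℝ)| := by
  have hK0 : 0 ≤ K := (abs_nonneg _).trans hK
  have hx1 : (1 : ℝ) ≤ |(x : ℝ)| := by exact_mod_cast Int.one_le_abs hx
  have hy1 : (1 : ℝ) ≤ |(y : ℝ)| := by exact_mod_cast Int.one_le_abs hy
  have hzx : |(x : ℝ)| ≤ |(z : ℝ)| := by exact_mod_cast hz
  have hx0 : 0 < |(x : ℝ)| := by linarith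
  have hy0 : 0 < |(y : ℝ)| := by linarith
  have hz0 : 0 < |(z : ℝ)| := by linarith
  have h1 : |(y : ℝ)| ≤ |(z : ℝ)| + K := by
    have := abs_sub_abs_le_abs_sub (y : ℝ) z
    linarith
  have h2 : |(z : ℝ)| ≤ |(y : ℝ)| + K := by
    have := abs_sub_abs_le_abs_sub (z : ℝ) y
    rw [abs_sub_comm] at this
    linarith
  -- `|y| ≥ |x| / (1 + K)`
  have h3 : |(x : ℝ)| ≤ (1 + K) * |(y : ℝ)| := by
    rcases le_total |(x : ℝ)| (1 + K) with h | h
    · nlinarith
    · nlinarith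
  rw [abs_le]
  constructor
  · have h4 : Real.log |(z : ℝ)| - Real.log |(y : ℝ)| ≤ K / |(y : ℝ)| := by
      rw [← Real.log_div hz0.ne' hy0.ne']
      refine (Real.log_le_sub_one_of_pos (by positivity)).trans ?_
      rw [div_sub_one hy0.ne']
      gcongr
      linarith
    have h5 : K / |(y : ℝ)| ≤ K * (1 + K) / |(x : ℝ)| := by
      rw [div_le_div_iff₀ hy0 hx0]
      nlinarith
    linarith
  · have h4 : Real.log |(y : ℝ)| - Real.log |(z : ℝ)| ≤ K / |(z : ℝ)| := by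
      rw [← Real.log_div hy0.ne' hz0.ne']
      refine (Real.log_le_sub_one_of_pos (by positivity)).trans ?_
      rw [div_sub_one hz0.ne']
      gcongr
      linarith
    have h5 : K / |(z : ℝ)| ≤ K * (1 + K) / |(x : ℝ)| := by
      rw [div_le_div_iff₀ hz0 hx0]
      nlinarith [mul_nonneg hK0 hK0, mul_nonneg hK0 hx0.le, mul_nonneg hK0 hz0.le,
        mul_nonneg (mul_nonneg hK0 hK0) hz0.le]
    linarith

/-- the maps considered: `d T(x) = β ^ e(x) x + O(1)` -/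
structure Model (T : ℤ → ℤ) (d β : ℕ) (e : ℤ → ℕ) (K : ℝ) : Prop where
  hd : 1 ≤ d
  hβ : 2 ≤ β
  bd : ∀ x : ℤ, |(((d : ℤ) * T x : ℤ) : ℝ) - (((β : ℤ) ^ e x * x : ℤ) : ℝ)| ≤ K

variable {T : ℤ → ℤ} {d β : ℕ} {e : ℤ → ℕ} {K : ℝ}

theorem Model.cycle (M : Model T d β e K) {c : Finset ℤ} (h : IsCycle T c) (h0 : (0 : ℤ) ∉ c) :
    |(c.card : ℝ) * Real.log d - ((∑ x ∈ c, e x : ℕ) : ℝ) * Real.log β| ≤
      ∑ x ∈ c, K * (1 + K) / |(x : ℝ)| := by
  have hd0 : (0 : ℝ) < d := by exact_mod_cast M.hd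
  have hβ0 : (0 : ℝ) < β := by exact_mod_cast (by have := M.hβ; omega : 0 < β)
  have hne : ∀ x ∈ c, x ≠ 0 := fun x hx h => h0 (h ▸ hx)
  have h1 : ∑ x ∈ c, (Real.log |((T x : ℤ) : ℝ)| - Real.log |((x : ℤ) : ℝ)|) = 0 := by
    rw [sum_sub_distrib, h.sum_comp (fun x => Real.log |((x : ℤ) : ℝ)|), sub_self]
  have h2 : (c.card : ℝ) * Real.log d - ((∑ x ∈ c, e x : ℕ) : ℝ) * Real.log β =
      ∑ x ∈ c, (Real.log |(((d : ℤ) * T x : ℤ) : ℝ)| - Real.log |(((β : ℤ) ^ e x * x : ℤ) : ℝ)|) := by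
    have h3 : ∀ x ∈ c, (Real.log |(((d : ℤ) * T x : ℤ) : ℝ)| -
        Real.log |(((β : ℤ) ^ e x * x : ℤ) : ℝ)|) =
        (Real.log |((T x : ℤ) : ℝ)| - Real.log |((x : ℤ) : ℝ)|) + (Real.log d - e x * Real.log β) := by
      intro x hx
      have hx0 : ((x : ℤ) : ℝ) ≠ 0 := by exact_mod_cast hne x hx
      have hT0 : ((T x : ℤ) : ℝ) ≠ 0 := by exact_mod_cast hne _ (h.map_mem hx)
      push_cast
      rw [abs_mul, abs_mul, abs_of_pos hd0, abs_of_pos (pow_pos hβ0 _),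
        Real.log_mul hd0.ne' (abs_pos.2 hT0).ne', Real.log_mul (pow_pos hβ0 _).ne' (abs_pos.2 hx0).ne',
        Real.log_pow]
      ring
    rw [sum_congr rfl h3, sum_add_distrib, h1, zero_add, sum_sub_distrib, sum_const, nsmul_eq_mul,
      ← sum_mul]
    push_cast
    ring
  rw [h2]
  refine (abs_sum_le_sum_abs _ _).trans (sum_le_sum fun x hx => ?_)
  apply step_bound _ (hne x hx) _ (M.bd x)
  · have := hne _ (h.map_mem hx)
    have hd' : (d : ℤ) ≠ 0 := by have := M.hd; omega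
    exact mul_ne_zero hd' this
  · rw [abs_mul]
    have : (1 : ℤ) ≤ |(β : ℤ) ^ e x| := by
      rw [abs_pow]
      apply one_le_pow₀
      have := M.hβ
      rw [abs_of_nonneg (by omega)]
      omega
    nlinarith [abs_nonneg x]

/-- harmonic sums over finite sets of nonzero integers -/
theorem harmonic_bound (S : Finset ℤ) (h0 : (0 : ℤ) ∉ S) (hS : S.Nonempty) :
    ∑ x ∈ S, 1 / |(x : ℝ)| ≤ 3 + 2 * Real.log S.card := by
  set N := S.card with hN
  have hN1 : 1 ≤ N := card_pos.2 hS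
  have hN0 : (0 : ℝ) < N := by exact_mod_cast hN1
  have hne : ∀ x ∈ S, x ≠ 0 := fun x hx h => h0 (h ▸ hx)
  rw [← sum_filter_add_sum_filter_not S (fun x => x.natAbs ≤ N)]
  have h1 : ∑ x ∈ S.filter (fun x => ¬ x.natAbs ≤ N), 1 / |(x : ℝ)| ≤ 1 := by
    have h2 : ∀ x ∈ S.filter (fun x => ¬ x.natAbs ≤ N), 1 / |(x : ℝ)| ≤ 1 / N := by
      intro x hx
      rw [mem_filter, not_le] at hx
      have h3 : (N : ℝ) ≤ |(x : ℝ)| := by
        have h4 : ((x.natAbs : ℕ) : ℝ) = |(x : ℝ)| := by rw [Nat.cast_natAbs]; simp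
        rw [← h4]
        exact_mod_cast hx.2.le
      exact one_div_le_one_div_of_le hN0 h3
    refine (sum_le_sum h2).trans ?_
    rw [sum_const, nsmul_eq_mul]
    have h5 : ((S.filter (fun x => ¬ x.natAbs ≤ N)).card : ℝ) ≤ N := by
      exact_mod_cast card_filter_le _ _
    rw [mul_one_div, div_le_one hN0]
    exact h5
  have h6 : ∑ x ∈ S.filter (fun x => x.natAbs ≤ N), 1 / |(x : ℝ)| ≤ 2 + 2 * Real.log N := by
    have hmaps : ∀ x ∈ S.filter (fun x => x.natAbs ≤ N), x.natAbs ∈ Icc 1 N := by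
      intro x hx
      rw [mem_filter] at hx
      rw [mem_Icc]
      exact ⟨Int.natAbs_pos.2 (hne x hx.1), hx.2⟩
    rw [← sum_fiberwise_of_maps_to hmaps]
    have h7 : ∀ n ∈ Icc 1 N, ∑ x ∈ (S.filter (fun x => x.natAbs ≤ N)).filter (fun x => x.natAbs = n),
        1 / |(x : ℝ)| ≤ 2 * (1 / (n : ℝ)) := by
      intro n hn
      have h8 : ∀ x ∈ (S.filter (fun x => x.natAbs ≤ N)).filter (fun x => x.natAbs = n),
          1 / |(x : ℝ)| = 1 / (n : ℝ) := by
        intro x hx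
        rw [mem_filter] at hx
        have h4 : ((x.natAbs : ℕ) : ℝ) = |(x : ℝ)| := by rw [Nat.cast_natAbs]; simp
        rw [← h4, hx.2]
      rw [sum_congr rfl h8, sum_const, nsmul_eq_mul]
      apply mul_le_mul_of_nonneg_right _ (by positivity)
      have h9 : (S.filter (fun x => x.natAbs ≤ N)).filter (fun x => x.natAbs = n) ⊆ {(n : ℤ), -(n : ℤ)} := by
        intro x hx
        rw [mem_filter] at hx
        rw [mem_insert, mem_singleton]
        have := hx.2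
        omega
      have h10 := (card_le_card h9).trans card_le_two
      exact_mod_cast h10
    refine (sum_le_sum h7).trans ?_
    rw [← mul_sum]
    have h11 : ∑ n ∈ Icc 1 N, 1 / (n : ℝ) ≤ 1 + Real.log N := by
      have := harmonic_le_one_add_log N
      rw [harmonic_eq_sum_Icc] at this
      push_cast at this
      simpa [one_div] using this
    linarith
  linarith

/-- **Disjoint cycles have a logarithmically bounded total defect.** -/
theorem Model.sum_cycles (M : Model T d β e K) (F : Finset (Finset ℤ))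
    (hF : ∀ c ∈ F, IsCycle T c ∧ (0 : ℤ) ∉ c) (hne : F.Nonempty) :
    ∑ c ∈ F, |(c.card : ℝ) * Real.log d - ((∑ x ∈ c, e x : ℕ) : ℝ) * Real.log β| ≤
      K * (1 + K) * (3 + 2 * Real.log (∑ c ∈ F, (c.card : ℝ))) := by
  classical
  have hK0 : 0 ≤ K := (abs_nonneg _).trans (M.bd 0)
  have hdis : (F : Set (Finset ℤ)).PairwiseDisjoint id := by
    intro c hc c' hc' hcc
    rw [Function.onFun, disjoint_left]
    intro y hy hy'
    exact hcc ((hF c hc).1.eq_of_mem (hF c' hc').1 hy hy')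
  have h1 : ∑ c ∈ F, |(c.card : ℝ) * Real.log d - ((∑ x ∈ c, e x : ℕ) : ℝ) * Real.log β| ≤
      ∑ c ∈ F, ∑ x ∈ c, K * (1 + K) / |(x : ℝ)| :=
    sum_le_sum fun c hc => M.cycle (hF c hc).1 (hF c hc).2
  refine h1.trans ?_
  have h2 : ∑ c ∈ F, ∑ x ∈ c, K * (1 + K) / |(x : ℝ)| =
      K * (1 + K) * ∑ x ∈ F.biUnion id, 1 / |(x : ℝ)| := by
    rw [sum_biUnion hdis, mul_sum]
    apply sum_congr rfl
    intro c _
    rw [id, mul_sum]
    apply sum_congr rfl
    intro x _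
    rw [mul_one_div]
  have h3 : ((F.biUnion id).card : ℝ) = ∑ c ∈ F, (c.card : ℝ) := by
    rw [card_biUnion hdis]
    push_cast
    rfl
  rw [h2]
  apply mul_le_mul_of_nonneg_left _ (by positivity)
  rw [← h3]
  apply harmonic_bound
  · intro h
    rw [mem_biUnion] at h
    obtain ⟨c, hc, hc0⟩ := h
    exact (hF c hc).2 hc0
  · obtain ⟨c, hc⟩ := hne
    obtain ⟨x, hx⟩ := (hF c hc).1.nonempty
    exact ⟨x, mem_biUnion.2 ⟨c, hc, hx⟩⟩

end Pool.Agent.H446R2.CS
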