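import Pool.Agent.H446R2.CycleCount
import Pool.Agent.H319R2.Measure

set_option autoImplicit false

/-!
Lengths of cycles when `(d, β) = (2, 3)`: a power saving; and irrationality of `log 2 / log a`.
-/

namespace Pool.Agent.H446R2.CS

open Finset Filter Topology

variable {T : ℤ → ℤ} {e : ℤ → ℕ} {K : ℝ}

theorem measure_div : ∃ c : ℝ, 0 < c ∧ c ≤ 1 ∧ ∀ j : ℕ, 1 ≤ j → ∀ k : ℤ,
    c / (j : ℝ) ^ 13 ≤ |(j : ℝ) * (Real.log (2 : ℕ) / Real.log (3 : ℕ)) - k| := by
  obtain ⟨c, hc, hm⟩ := Pool.Agent.H319R2.measure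
  have h3 : (0 : ℝ) < Real.log 3 := Real.log_pos (by norm_num)
  have h2 : (0 : ℝ) < Real.log 2 := Real.log_pos (by norm_num)
  have h23 : Real.log 2 < Real.log 3 := Real.log_lt_log (by norm_num) (by norm_num)
  refine ⟨min 1 (c / (3 ^ 13 * Real.log 3)), lt_min one_pos (by positivity), min_le_left _ _, ?_⟩
  intro j hj k
  have hj1 : (1 : ℝ) ≤ j := by exact_mod_cast hj
  have hj0 : (0 : ℝ) < j := by linarith
  have hj13 : (1 : ℝ) ≤ (j : ℝ) ^ 13 := one_le_pow₀ hj1
  push_cast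
  set α := Real.log 2 / Real.log 3 with hα
  have hα0 : 0 < α := by positivity
  have hα1 : α < 1 := by rw [hα, div_lt_one h3]; exact h23
  rcases lt_or_ge (2 * (j : ℤ)) |k| with hk | hk
  · have hk' : 2 * (j : ℝ) < |(k : ℝ)| := by exact_mod_cast hk
    have h4 : |(k : ℝ)| ≤ |(j : ℝ) * α - k| + |(j : ℝ) * α| := by
      have := abs_sub_abs_le_abs_sub (k : ℝ) ((j : ℝ) * α)
      rw [abs_sub_comm] at this
      linarith
    have h5 : |(j : ℝ) * α| ≤ j := by
      rw [abs_of_nonneg (by positivity)]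
      nlinarith
    have h6 : min 1 (c / (3 ^ 13 * Real.log 3)) / (j : ℝ) ^ 13 ≤ 1 := by
      rw [div_le_one (by positivity)]
      exact (min_le_left _ _).trans hj13
    linarith
  · have h4 := hm (j : ℤ) (-k) (Or.inl (by omega))
    have h5 : ((|(j : ℤ)| + |-k| : ℤ) : ℝ) ≤ 3 * j := by
      rw [abs_neg, Nat.abs_cast]
      have : (j : ℤ) + |k| ≤ 3 * j := by omega
      exact_mod_cast this
    have h6 : (0 : ℝ) ≤ ((|(j : ℤ)| + |-k| : ℤ) : ℝ) := by
      have : (0 : ℤ) ≤ |(j : ℤ)| + |-k| := by positivity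
      exact_mod_cast this
    have h7 : ((j : ℤ) : ℝ) * Real.log 2 + ((-k : ℤ) : ℝ) * Real.log 3 =
        ((j : ℝ) * α - k) * Real.log 3 := by
      rw [hα, sub_mul, mul_assoc, div_mul_cancel₀ _ h3.ne']
      push_cast
      ring
    rw [h7, abs_mul, abs_of_pos h3] at h4
    have h8 : c ≤ (3 * (j : ℝ)) ^ 13 * (|(j : ℝ) * α - k| * Real.log 3) :=
      h4.trans (mul_le_mul_of_nonneg_right (pow_le_pow_left₀ h6 h5 13) (by positivity))
    calc min 1 (c / (3 ^ 13 * Real.log 3)) / (j : ℝ) ^ 13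
        ≤ c / (3 ^ 13 * Real.log 3) / (j : ℝ) ^ 13 := by
          apply div_le_div_of_nonneg_right (min_le_right _ _) (by positivity)
      _ ≤ |(j : ℝ) * α - k| := by
          rw [div_div, div_le_iff₀ (by positivity)]
          calc c ≤ (3 * (j : ℝ)) ^ 13 * (|(j : ℝ) * α - k| * Real.log 3) := h8
            _ = _ := by rw [mul_pow]; ring

theorem Model.lengths_three (M : Model T 2 3 e K) : ∃ C : ℝ, ∀ P : ℕ, 1 ≤ P →
    ((lengths T P).ncard : ℝ) ≤ C * (P : ℝ) ^ (13 / 14 : ℝ) * (1 + Real.log P) := by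
  obtain ⟨C, hC, hlen⟩ := M.lengths_le
  obtain ⟨c, hc, hc1, hm⟩ := measure_div
  refine ⟨3 + C / (c / 2) * (2 + Real.log (1 / (c / 2))), ?_⟩
  intro P hP
  have hPr : (1 : ℝ) ≤ P := by exact_mod_cast hP
  have hP0 : (0 : ℝ) < P := by linarith
  have hlP : 0 ≤ Real.log P := Real.log_nonneg hPr
  set X : ℝ := (P : ℝ) ^ (13 / 14 : ℝ) with hX
  set Y : ℝ := (P : ℝ) ^ (1 / 14 : ℝ) with hY
  have hX1 : 1 ≤ X := Real.one_le_rpow hPr (by norm_num)
  have hY1 : 1 ≤ Y := Real.one_le_rpow hPr (by norm_num)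
  have hXY : X * Y = P := by
    rw [hX, hY, ← Real.rpow_add hP0]; norm_num
  have hY13 : Y ^ 13 = X := by
    rw [hX, hY, ← Real.rpow_natCast, ← Real.rpow_mul hP0.le]; norm_num
  set q : ℕ := ⌈Y⌉₊ with hq
  have hqY : Y ≤ q := Nat.le_ceil Y
  have hq1 : 1 ≤ q := by
    have : (1 : ℝ) ≤ q := hY1.trans hqY
    exact_mod_cast this
  set ε : ℝ := c / 2 / X with hε
  have hε0 : 0 < ε := by positivity
  have hε1 : ε ≤ 1 := by
    rw [hε, div_le_one (by linarith)]
    linarith
  have h1 := hlen P q ε hP hq1 hε0 hε1 (by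
    intro j hj hjq k
    refine le_trans ?_ (hm j hj k)
    have h2 : (j : ℝ) < Y := Nat.lt_ceil.1 hjq
    have h3 : (j : ℝ) ^ 13 ≤ X := by
      rw [← hY13]
      exact pow_le_pow_left₀ (Nat.cast_nonneg _) h2.le 13
    have hj0 : (0 : ℝ) < (j : ℝ) ^ 13 := by
      have : (0 : ℝ) < j := by exact_mod_cast hj
      positivity
    rw [hε]
    calc 2 * (c / 2 / X) = c / X := by ring
      _ ≤ c / (j : ℝ) ^ 13 := by
        apply div_le_div_of_nonneg_left hc.le hj0 h3)
  have h2 : (P : ℝ) / q ≤ X := by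
    rw [div_le_iff₀ (by linarith), ← hXY]
    exact mul_le_mul_of_nonneg_left hqY (by linarith)
  have h3 : Real.log (1 / ε) ≤ Real.log (1 / (c / 2)) + Real.log P := by
    have e1 : 1 / ε = 1 / (c / 2) * X := by
      rw [hε]; field_simp
    rw [e1, Real.log_mul (by positivity) (by positivity)]
    have : Real.log X ≤ Real.log P := by
      apply Real.log_le_log (by linarith)
      nlinarith
    linarith
  have h4 : C / ε = C / (c / 2) * X := by
    rw [hε]; field_simp
  have hl0 : 0 ≤ Real.log (1 / (c / 2)) := by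
    apply Real.log_nonneg
    rw [le_div_iff₀ (by positivity)]
    linarith
  have hCc : 0 < C / (c / 2) := by positivity
  rw [h4] at h1
  have h5 : C / (c / 2) * X * (1 + Real.log P + Real.log (1 / ε)) ≤
      C / (c / 2) * X * ((2 + Real.log (1 / (c / 2))) * (1 + Real.log P)) := by
    apply mul_le_mul_of_nonneg_left _ (by positivity)
    nlinarith [mul_nonneg hl0 hlP]
  have h6 : (P : ℝ) / q + 2 ≤ 3 * X * (1 + Real.log P) := by
    nlinarith [mul_nonneg (show 0 ≤ X by linarith) hlP]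
  calc ((lengths T P).ncard : ℝ) ≤ _ := h1
    _ ≤ 3 * X * (1 + Real.log P) +
        C / (c / 2) * X * ((2 + Real.log (1 / (c / 2))) * (1 + Real.log P)) := add_le_add h6 h5
    _ = _ := by ring

theorem irrational_log_div (a : ℕ) (ha : Odd a) (ha3 : 3 ≤ a) :
    Irrational (Real.log (2 : ℕ) / Real.log a) := by
  rintro ⟨r, hr⟩
  have h2 : (0 : ℝ) < Real.log (2 : ℕ) := Real.log_pos (by norm_num)
  have hla : (0 : ℝ) < Real.log a := Real.log_pos (by exact_mod_cast (by omega : 1 < a))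
  have hr0 : (0 : ℝ) < r := by rw [hr]; positivity
  have hrq : 0 < r := by exact_mod_cast hr0
  have hnum : 0 < r.num := Rat.num_pos.2 hrq
  obtain ⟨n, hn⟩ := Int.eq_ofNat_of_zero_le hnum.le
  have h3 : (r : ℝ) = (n : ℝ) / r.den := by
    have := Rat.num_div_den r
    rw [hn] at this
    have h4 : ((((n : ℤ) : ℚ) / (r.den : ℚ) : ℚ) : ℝ) = ((r : ℚ) : ℝ) := by rw [this]
    push_cast at h4
    exact h4.symm
  have hden : (0 : ℝ) < r.den := by exact_mod_cast r.den_pos
  have h5 : (r.den : ℝ) * Real.log (2 : ℕ) = n * Real.log a := by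
    rw [h3] at hr
    rw [div_eq_div_iff hden.ne' hla.ne'] at hr
    linarith
  have h6 : Real.log (((2 ^ r.den : ℕ)) : ℝ) = Real.log (((a ^ n : ℕ)) : ℝ) := by
    push_cast
    rw [Real.log_pow, Real.log_pow]
    exact_mod_cast h5
  have h7 : ((2 ^ r.den : ℕ) : ℝ) = ((a ^ n : ℕ) : ℝ) := by
    apply Real.log_injOn_pos _ _ h6
    · exact Set.mem_Ioi.2 (by positivity)
    · exact Set.mem_Ioi.2 (by have : 0 < a := by omega
                              positivity)
  have h8 : 2 ^ r.den = a ^ n := by exact_mod_cast h7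
  have h9 : Odd (2 ^ r.den) := by rw [h8]; exact ha.pow
  have h10 : Even (2 ^ r.den) := by
    have := r.den_pos
    exact (even_two.pow_of_ne_zero (by omega))
  exact (Nat.not_odd_iff_even.2 h10) h9

end Pool.Agent.H446R2.CS
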